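import Pool.Agent.PFE.StmtsE1

/-!
# Squad PFE, part E1, row CRN: reduction to the corner `f A f` (helper79)
-/

set_option autoImplicit false

open scoped BigOperators

noncomputable section

namespace Pool.Agent.PFE.H79

open Pool.Agent.PFC.B1 (FS Split)

section corner

variable {K A : Type} [Field K] [Ring A] [Algebra K A]

/-- the corner `j A j` as a subspace -/
def crn (K : Type) {A : Type} [Field K] [Ring A] [Algebra K A] (j : A) : Submodule K A where
  carrier := {a | j * a = a ∧ a * j = a}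
  add_mem' := by
    rintro a b ⟨h1, h2⟩ ⟨h3, h4⟩
    exact ⟨by rw [mul_add, h1, h3], by rw [add_mul, h2, h4]⟩
  zero_mem' := ⟨mul_zero _, zero_mul _⟩
  smul_mem' := by
    rintro c a ⟨h1, h2⟩
    exact ⟨by rw [mul_smul_comm, h1], by rw [smul_mul_assoc, h2]⟩

theorem crn_mul {j a b : A} (ha : a ∈ crn K j) (hb : b ∈ crn K j) : a * b ∈ crn K j :=
  ⟨by rw [← mul_assoc, ha.1], by rw [mul_assoc, hb.2]⟩

/-- the ring structure of the corner -/
@[reducible] def crnRing (j : A) (hj : j * j = j) : Ring (crn K j) :=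
  { (inferInstance : AddCommGroup (crn K j)) with
    mul := fun a b => ⟨a.1 * b.1, crn_mul a.2 b.2⟩
    one := ⟨j, hj, hj⟩
    mul_assoc := fun a b c => Subtype.ext (mul_assoc a.1 b.1 c.1)
    one_mul := fun a => Subtype.ext a.2.1
    mul_one := fun a => Subtype.ext a.2.2
    left_distrib := fun a b c => Subtype.ext (mul_add a.1 b.1 c.1)
    right_distrib := fun a b c => Subtype.ext (add_mul a.1 b.1 c.1)
    zero_mul := fun a => Subtype.ext (zero_mul a.1)
    mul_zero := fun a => Subtype.ext (mul_zero a.1) }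

/-- The corner with its inclusion `κ` and the compression `pr`. -/
structure Cn (K A A' : Type) [Field K] [Ring A] [Algebra K A] [Ring A'] [Algebra K A'] (f : A)
    (κ : A' →ₗ[K] A) (pr : A →ₗ[K] A') : Prop where
  ff : f * f = f
  inj : Function.Injective κ
  mul : ∀ a b, κ (a * b) = κ a * κ b
  one : κ 1 = f
  kp : ∀ a, κ (pr a) = f * a * f
  pk : ∀ a, pr (κ a) = a

theorem ex_cn (f : A) (hf : f * f = f) : ∃ (A' : Type) (_ : Ring A') (_ : Algebra K A')
    (κ : A' →ₗ[K] A) (pr : A →ₗ[K] A'), Cn K A A' f κ pr := by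
  letI := crnRing (K := K) f hf
  letI : Algebra K (crn K f) := Algebra.ofModule
    (fun r x y => Subtype.ext (smul_mul_assoc r x.1 y.1))
    (fun r x y => Subtype.ext (mul_smul_comm r x.1 y.1))
  have hm : ∀ a, f * a * f ∈ crn K f := by
    intro a
    exact ⟨by rw [← mul_assoc, ← mul_assoc, hf], by rw [mul_assoc, hf]⟩
  let pr : A →ₗ[K] crn K f :=
    { toFun := fun a => ⟨f * a * f, hm a⟩
      map_add' := fun a b => Subtype.ext (by
        change f * (a + b) * f = f * a * f + f * b * f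
        rw [mul_add, add_mul])
      map_smul' := fun r a => Subtype.ext (by
        change f * (r • a) * f = r • (f * a * f)
        rw [mul_smul_comm, smul_mul_assoc]) }
  refine ⟨crn K f, inferInstance, inferInstance, (crn K f).subtype, pr, hf,
    Subtype.coe_injective, fun a b => rfl, rfl, fun a => rfl, fun a => Subtype.ext ?_⟩
  change f * a.1 * f = a.1
  rw [a.2.1, a.2.2]

variable {A' : Type} [Ring A'] [Algebra K A'] {f : A} {κ : A' →ₗ[K] A} {pr : A →ₗ[K] A'}

theorem Cn.fl (h : Cn K A A' f κ pr) (a : A') : f * κ a = κ a := by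
  rw [← h.one, ← h.mul, one_mul]

theorem Cn.fr (h : Cn K A A' f κ pr) (a : A') : κ a * f = κ a := by
  rw [← h.one, ← h.mul, mul_one]

theorem Cn.pf (h : Cn K A A' f κ pr) {y : A} (hy : y * f = f * y) :
    κ (pr y) = y * f := by
  rw [h.kp, ← hy, mul_assoc, h.ff]

theorem Cn.yl (h : Cn K A A' f κ pr) {y : A} (hy : y * f = f * y) (a : A') :
    κ (pr y * a) = y * κ a := by
  rw [h.mul, h.pf hy, mul_assoc, h.fl]

theorem Cn.yr (h : Cn K A A' f κ pr) {y : A} (hy : y * f = f * y) (a : A') :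
    κ (a * pr y) = κ a * y := by
  rw [h.mul, h.pf hy, hy, ← mul_assoc, h.fr]

theorem Cn.yln (h : Cn K A A' f κ pr) {y : A} (hy : y * f = f * y) (n : ℕ) (a : A') :
    κ (pr y ^ n * a) = y ^ n * κ a := by
  induction n with
  | zero => rw [pow_zero, pow_zero, one_mul, one_mul]
  | succ n ih => rw [pow_succ', pow_succ', mul_assoc, h.yl hy, ih, mul_assoc]

theorem Cn.yrn (h : Cn K A A' f κ pr) {y : A} (hy : y * f = f * y) (n : ℕ) (a : A') :
    κ (a * pr y ^ n) = κ a * y ^ n := by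
  induction n with
  | zero => rw [pow_zero, pow_zero, mul_one, mul_one]
  | succ n ih => rw [pow_succ, pow_succ, ← mul_assoc, h.yr hy, ih, mul_assoc]

theorem yn {y : A} (hy : y * f = f * y) (n : ℕ) : y ^ n * f = f * y ^ n := by
  have h : Commute y f := hy
  exact (h.pow_left n).eq

theorem Cn.Tx (h : Cn K A A' f κ pr) {y : A} (hy : y * f = f * y) (l : ℕ) (c : K) (a : A') :
    κ (Tx (pr y) l c a) = Tx y l c (κ a) := by
  unfold Pool.Agent.PFE.Tx
  rw [map_sum]
  refine Finset.sum_congr rfl fun j _ => ?_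
  rw [map_smul, mul_assoc, h.yln hy, h.yrn hy, mul_assoc]

theorem Cn.nx (h : Cn K A A' f κ pr) {X : Type} [Group X] {y : A} (hy : y * f = f * y)
    (χ : X →* K) (x : X) (a : A') : a ∈ Nx (pr y) χ x ↔ κ a ∈ Nx y χ x := by
  have h1 : a ∈ Nx (pr y) χ x ↔ pr y * a = χ x • (a * pr y) := Iff.rfl
  have h2 : κ a ∈ Nx y χ x ↔ y * κ a = χ x • (κ a * y) := Iff.rfl
  rw [h1, h2, ← h.yl hy, ← h.yr hy, ← map_smul]
  exact ⟨fun h3 => by rw [h3], fun h3 => h.inj h3⟩

end corner

section main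

variable {K A X S J Ω Ω' : Type} [Field K] [Ring A] [Algebra K A] [Group X]
  [Fintype X] [Ring S] [Algebra K S] [Fintype J] [Fintype Ω] [Fintype Ω'] {y : A} {l : ℕ}
  {χ : X →* K} {A' : Type} [Ring A'] [Algebra K A'] {f : A} {κ : A' →ₗ[K] A} {pr : A →ₗ[K] A'}

/-- compressing a product with an element of the corner under a trace form -/
theorem lam_cmp (lam : A →ₗ[K] K) (ds : ∀ a b, lam (a * b) = lam (b * a))
    (h : Cn K A A' f κ pr) (g : A) (a : A') : lam (κ (pr g * a)) = lam (g * κ a) := by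
  rw [h.mul, h.kp, mul_assoc, h.fl, mul_assoc, ds, mul_assoc, h.fr]

theorem lam_cmp' (lam : A →ₗ[K] K) (ds : ∀ a b, lam (a * b) = lam (b * a))
    (h : Cn K A A' f κ pr) (g : A) (a : A') : lam (κ (a * pr g)) = lam (κ a * g) := by
  rw [h.mul, h.kp, ← mul_assoc, ← mul_assoc, h.fr, ds, ← mul_assoc, h.fl]

/-- the Frobenius system of the corner -/
def dC (D : Yk K A X J Ω Ω' y l χ) (h : Cn K A A' f κ pr) : FS K A' J where
  lam := D.d.lam.comp κ
  b := fun p => pr (D.d.b p)
  b' := fun p => pr (D.d.b' p)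
  h1 := by
    intro x
    apply h.inj
    rw [map_sum]
    have h1 := congrArg (fun z => f * z * f) (D.d.h1 (κ x))
    rw [h.fl, h.fr, Finset.mul_sum, Finset.sum_mul] at h1
    rw [← h1]
    refine Finset.sum_congr rfl fun p _ => ?_
    rw [map_smul, h.kp, LinearMap.comp_apply, lam_cmp _ D.ds h, mul_smul_comm, smul_mul_assoc]
  h2 := by
    intro x
    apply h.inj
    rw [map_sum]
    have h1 := congrArg (fun z => f * z * f) (D.d.h2 (κ x))
    rw [h.fl, h.fr, Finset.mul_sum, Finset.sum_mul] at h1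
    rw [← h1]
    refine Finset.sum_congr rfl fun p _ => ?_
    rw [map_smul, h.kp, LinearMap.comp_apply, lam_cmp' _ D.ds h, mul_smul_comm, smul_mul_assoc]

theorem ypr (h : Cn K A A' f κ pr) (hy : y * f = f * y) (n : ℕ) (g : A) :
    κ (pr y ^ n * pr g) = f * (y ^ n * g) * f := by
  rw [h.yln hy, h.kp, ← mul_assoc, ← mul_assoc, yn hy, mul_assoc f]

theorem pry (h : Cn K A A' f κ pr) (hy : y * f = f * y) (n : ℕ) (g : A) :
    κ (pr g * pr y ^ n) = f * (g * y ^ n) * f := by
  rw [h.yrn hy, h.kp, mul_assoc, ← yn hy, mul_assoc, mul_assoc, mul_assoc]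

/-- the frame of the corner -/
def ydC (D : Yk K A X J Ω Ω' y l χ) (h : Cn K A A' f κ pr) (hy : y * f = f * y) :
    Yd K A' X J Ω Ω' (pr y) l χ where
  hl := D.hl
  χl := D.χl
  χu := D.χu
  yl := by
    apply h.inj
    have h1 := h.yln hy l 1
    rw [mul_one, D.yl, zero_mul] at h1
    rw [h1, map_zero]
  d := dC D h
  ds := by
    intro a b
    change D.d.lam (κ (a * b)) = D.d.lam (κ (b * a))
    rw [h.mul, h.mul, D.ds]
  deg := D.deg
  g := fun o => pr (D.g o)
  g' := fun o => pr (D.g' o)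
  gy := by
    intro o
    apply h.inj
    have h1 := ypr h hy 1 (D.g o)
    have h2 := pry h hy 1 (D.g o)
    rw [pow_one, pow_one] at h1 h2
    rw [map_smul, h1, h2, D.gy, mul_smul_comm, smul_mul_assoc]
  g'y := by
    intro o
    apply h.inj
    have h1 := ypr h hy 1 (D.g' o)
    have h2 := pry h hy 1 (D.g' o)
    rw [pow_one, pow_one] at h1 h2
    rw [map_smul, h1, h2, D.g'y, mul_smul_comm, smul_mul_assoc]
  h := fun o => pr (D.h o)
  h' := fun o => pr (D.h' o)
  fr := by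
    intro a
    apply h.inj
    have h1 := congrArg (fun z => f * z * f) (D.fr (κ a))
    rw [h.fl, h.fr, mul_add, add_mul, Finset.mul_sum, Finset.mul_sum, Finset.sum_mul,
      Finset.sum_mul] at h1
    rw [← h1, map_add, map_sum, map_sum]
    congr 1
    · refine Finset.sum_congr rfl fun o _ => ?_
      rw [map_sum, Finset.mul_sum, Finset.sum_mul]
      refine Finset.sum_congr rfl fun i _ => ?_
      rw [map_smul, ypr h hy, mul_smul_comm, smul_mul_assoc]
      congr 1
      change D.d.lam (κ (pr (D.g' o) * pr y ^ (l - 1 - i) * a)) = _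
      rw [mul_assoc, lam_cmp _ D.ds h, h.yln hy, mul_assoc]
    · refine Finset.sum_congr rfl fun o _ => ?_
      rw [map_sum, Finset.mul_sum, Finset.sum_mul]
      refine Finset.sum_congr rfl fun i _ => ?_
      rw [map_sum, Finset.mul_sum, Finset.sum_mul]
      refine Finset.sum_congr rfl fun k _ => ?_
      rw [map_smul, mul_smul_comm, smul_mul_assoc]
      congr 1
      · change D.d.lam (κ (pr (D.h' o) * (pr y ^ (l - 1 - i) * a * pr y ^ (l - 1 - k)))) = _
        rw [lam_cmp _ D.ds h, h.yrn hy, h.yln hy]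
      · rw [h.yrn hy, ypr h hy, mul_assoc _ f, ← yn hy]
        simp only [mul_assoc]

theorem e_C (D : Yk K A X J Ω Ω' y l χ) (h : Cn K A A' f κ pr) (hy : y * f = f * y)
    (r : Ω ⊕ (Ω' × Fin l)) : κ ((ydC D h hy).e r) = f * D.e r * f := by
  rcases r with o | p
  · exact h.kp _
  · exact ypr h hy _ _

theorem e'_C (D : Yk K A X J Ω Ω' y l χ) (h : Cn K A A' f κ pr) (hy : y * f = f * y)
    (r : Ω ⊕ (Ω' × Fin l)) : κ ((ydC D h hy).e' r) = f * D.e' r * f := by
  rcases r with o | p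
  · exact h.kp _
  · exact pry h hy _ _

theorem RT_C (D : Yk K A X J Ω Ω' y l χ) (h : Cn K A A' f κ pr) (hy : y * f = f * y)
    (a : A') : κ ((ydC D h hy).RT a) = f * D.RT (κ a) * f := by
  unfold Yd.RT
  rw [map_sum, Finset.mul_sum, Finset.sum_mul]
  refine Finset.sum_congr rfl fun r _ => ?_
  rw [h.mul, h.mul, e_C, e'_C]
  calc f * D.e r * f * κ a * (f * D.e' r * f)
      = f * D.e r * (f * κ a) * f * D.e' r * f := by simp only [mul_assoc]
    _ = f * D.e r * (κ a * f) * D.e' r * f := by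
        rw [h.fl]
        simp only [mul_assoc]
    _ = f * (D.e r * κ a * D.e' r) * f := by
        rw [h.fr]
        simp only [mul_assoc]

theorem TA_C (D : Yk K A X J Ω Ω' y l χ) (h : Cn K A A' f κ pr) (hy : y * f = f * y)
    (a : A') : κ ((ydC D h hy).TA a) = f * D.TA (κ a) * f := by
  unfold Yd.TA
  rw [map_sum, Finset.mul_sum, Finset.sum_mul]
  refine Finset.sum_congr rfl fun p _ => ?_
  change κ (pr (D.d.b p) * a * pr (D.d.b' p)) = _
  rw [h.mul, h.mul, h.kp, h.kp]
  calc f * D.d.b p * f * κ a * (f * D.d.b' p * f)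
      = f * D.d.b p * (f * κ a) * f * D.d.b' p * f := by simp only [mul_assoc]
    _ = f * D.d.b p * (κ a * f) * D.d.b' p * f := by
        rw [h.fl]
        simp only [mul_assoc]
    _ = f * (D.d.b p * κ a * D.d.b' p) * f := by
        rw [h.fr]
        simp only [mul_assoc]

end main

theorem crn_ (txr : TxrStmt) (txa : TxaStmt) (rtk : RtkStmt) : CrnStmt := by
  intro K A X S J Ω Ω' _ _ _ _ _ _ _ _ _ _ _ y l χ D L f hff hyf hf1
  obtain ⟨a0, ha0⟩ := hf1
  obtain ⟨A', iR, iA, κ, pr, h⟩ := ex_cn (K := K) f hff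
  have hfin : Module.Finite K A' := Module.Finite.of_injective κ h.inj
  have hl1 : 1 ≤ l := by
    have := D.hl
    omega
  obtain ⟨t1, t2, t3, t4, t5, -, -⟩ := txr K A X y l χ hl1 D.yl D.χl
  obtain ⟨x1, x2, x3, x4, x5⟩ := txa K A X y l χ hl1 D.yl D.χl
  have hyl' : pr y ^ l = 0 := (ydC D h hyf).yl
  obtain ⟨-, -, x3', -, -⟩ := txa K A' X (pr y) l χ hl1 hyl' D.χl
  obtain ⟨-, -, r3, r4, r5, -, -, -⟩ := rtk K A X J Ω Ω' y l χ D.toYd
  have hf1 : f ∈ Nx y χ 1 := by
    show y * f = χ 1 • (f * y)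
    rw [map_one, one_smul, hyf]
  have hone : (1 : K) = χ 1 := (map_one χ).symm
  have ha0' : 1 - f = Tx y l (χ 1) a0 := by rw [← hone, ha0]
  -- `n - f n f` is in the ideal
  have hJ : ∀ x, ∀ n ∈ Nx y χ x, ∃ b, n - f * n * f = Tx y l (χ x) b := by
    intro x n hn
    refine ⟨a0 * n + f * n * a0, ?_⟩
    have h1 : Tx y l (χ x) (a0 * n) = (1 - f) * n := by
      rw [ha0', t3 x 1 n a0 hn, one_mul]
    have hfn : f * n ∈ Nx y χ x := by
      have := Nx_mul hf1 hn
      rwa [one_mul] at this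
    have h2 : Tx y l (χ x) (f * n * a0) = f * n * (1 - f) := by
      rw [ha0', t2 x 1 (f * n) a0 hfn, mul_one]
    rw [x1, h1, h2, sub_mul, one_mul, mul_sub, mul_one]
    abel
  have hJ' : ∀ x, ∀ n ∈ Nx y χ x, n - f * n * f ∈ Jx y l χ x := by
    intro x n hn
    obtain ⟨b, hb⟩ := hJ x n hn
    rw [hb]
    exact Submodule.subset_span (Or.inl ⟨b, rfl⟩)
  have hfnf : ∀ x, ∀ n ∈ Nx y χ x, f * n * f ∈ Nx y χ x := by
    intro x n hn
    have h1 := Nx_mul (Nx_mul hf1 hn) hf1
    rwa [one_mul, mul_one] at h1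
  -- `TA` is central
  have hTAc : ∀ a b, b * D.TA a = D.TA a * b := by
    intro a b
    rw [← r5]
    refine r3 _ ?_ b
    have h1 := t1 1 a
    rw [map_one] at h1
    have h2 : y * Tx y l (1 : K) a = χ 1 • (Tx y l (1 : K) a * y) := h1
    rw [map_one, one_smul] at h2
    exact h2
  -- the separating element
  have hw1 : D.w ∈ Nx y χ 1 := by
    show y * D.w = χ 1 • (D.w * y)
    rw [map_one, one_smul, D.wy]
  obtain ⟨b0, hb0⟩ := hJ 1 D.w hw1
  rw [map_one] at hb0
  have hRTadd : ∀ a b, D.RT (a + b) = D.RT a + D.RT b := by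
    intro a b
    unfold Yd.RT
    rw [← Finset.sum_add_distrib]
    refine Finset.sum_congr rfl fun r _ => ?_
    rw [mul_add, add_mul]
  have hRTf : D.RT (f * D.w * f) = 1 - D.TA b0 := by
    have h1 : D.RT D.w = D.RT (f * D.w * f) + D.RT (Tx y l (1 : K) b0) := by
      rw [← hRTadd, ← hb0]
      congr 1
      abel
    rw [D.rw, r5] at h1
    rw [h1]
    abel
  have hun : IsUnit (1 - D.TA b0) := (D.np b0).isUnit_one_sub
  obtain ⟨ζ, hζ1⟩ := hun.exists_left_inv
  have hζ2 : (1 - D.TA b0) * ζ = 1 := by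
    obtain ⟨u, hu⟩ := hun
    rw [← hu] at hζ1 ⊢
    rw [← Units.inv_eq_of_mul_eq_one_left hζ1]
    exact u.mul_inv
  have hζc : ∀ b, ζ * b = b * ζ := by
    intro b
    have h1 : b * (1 - D.TA b0) = (1 - D.TA b0) * b := by
      rw [mul_sub, sub_mul, mul_one, one_mul, hTAc]
    calc ζ * b = ζ * (b * ((1 - D.TA b0) * ζ)) := by rw [hζ2, mul_one]
      _ = ζ * ((b * (1 - D.TA b0)) * ζ) := by rw [mul_assoc]
      _ = ζ * (1 - D.TA b0) * (b * ζ) := by
          rw [h1]
          simp only [mul_assoc]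
      _ = b * ζ := by rw [hζ1, one_mul]
  obtain ⟨w', hw'⟩ : ∃ w', w' = pr (ζ * D.w) := ⟨_, rfl⟩
  have hκw : κ w' = ζ * (f * D.w * f) := by
    rw [hw', h.kp, ← mul_assoc f, ← hζc f]
    simp only [mul_assoc]
  have hwf1 : f * D.w * f ∈ Nx y χ 1 := hfnf 1 _ hw1
  have hwf2 : y * (f * D.w * f) = f * D.w * f * y := by
    have h1 : y * (f * D.w * f) = χ 1 • (f * D.w * f * y) := hwf1
    rwa [map_one, one_smul] at h1
  refine ⟨A', iR, iA, hfin, κ, pr y,
    { toYd := ydC D h hyf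
      w := w'
      wy := ?_
      rw := ?_
      np := ?_ },
    { toGS := L.toGS
      p := fun x =>
        { toFun := fun a => L.p x ⟨κ a, (h.nx hyf χ x a).1 a.2⟩
          map_add' := ?_
          map_smul' := ?_ }
      pc := ?_
      ps := ?_
      ker := ?_
      one := ?_
      mul := ?_ }, h.inj, h.mul, h.one, ?_, ?_, rfl⟩
  · apply h.inj
    rw [h.yl hyf, h.yr hyf, hκw, ← mul_assoc, ← hζc y, mul_assoc, hwf2]
    simp only [mul_assoc]
  · apply h.inj
    rw [RT_C, hκw, r4 ζ _ hζc, hRTf, hζ1, mul_one, hff, h.one]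
  · intro a
    obtain ⟨n, hn⟩ := D.np (κ a)
    refine ⟨n + 1, ?_⟩
    apply h.inj
    have h1 : ∀ m : ℕ, κ ((ydC D h hyf).TA a ^ (m + 1)) = D.TA (κ a) ^ (m + 1) * f := by
      intro m
      induction m with
      | zero =>
        rw [zero_add, pow_one, pow_one, TA_C, hTAc, mul_assoc, hff]
      | succ m ih =>
        have h2 : f * (f * D.TA (κ a) * f) = D.TA (κ a) * f := by
          rw [← mul_assoc, ← mul_assoc, hff, hTAc, mul_assoc, hff]
        rw [pow_succ, h.mul, ih, TA_C, mul_assoc, h2, ← mul_assoc, ← pow_succ]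
    rw [h1, pow_succ, hn, zero_mul, zero_mul, map_zero]
  · intro a b
    rw [← map_add]
    congr 1
    exact Subtype.ext (map_add κ _ _)
  · intro c a
    rw [RingHom.id_apply, ← map_smul]
    congr 1
    exact Subtype.ext (map_smul κ _ _)
  · intro x a
    exact L.pc x _
  · intro x s
    obtain ⟨n, hn⟩ := L.ps x s
    have h1 : κ (pr n) ∈ Nx y χ x := by
      rw [h.kp]
      exact hfnf x n n.2
    refine ⟨⟨pr n, (h.nx hyf χ x _).2 h1⟩, ?_⟩
    change L.p x ⟨κ (pr n), _⟩ = L.c x s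
    rw [← hn, ← sub_eq_zero, ← map_sub, L.ker]
    change κ (pr n) - (n : A) ∈ Jx y l χ x
    rw [h.kp, ← neg_sub]
    exact Submodule.neg_mem _ (hJ' x n n.2)
  · intro x a
    change L.p x ⟨κ a, _⟩ = 0 ↔ _
    rw [L.ker]
    change κ a ∈ Jx y l χ x ↔ (a : A') ∈ Jx (pr y) l χ x
    rw [x3, x3']
    constructor
    · rintro ⟨b, n, hn, hb⟩
      refine ⟨pr b, pr n, ?_, ?_⟩
      · rw [h.nx hyf, h.kp]
        exact hfnf x n hn
      · apply h.inj
        rw [map_add, h.Tx hyf, h.yl hyf, h.kp, h.kp]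
        have h1 : f * Tx y l (χ x) b = Tx y l (χ x) (f * b) := by
          rw [t2 1 x f b hf1, one_mul]
        have h2 : Tx y l (χ x) (f * b) * f = Tx y l (χ x) (f * b * f) := by
          rw [t3 1 x f (f * b) hf1, mul_one]
        rw [← h2, ← h1]
        have h3 := congrArg (fun z => f * z * f) hb
        rw [h.fl, h.fr] at h3
        rw [h3, mul_add, add_mul, ← mul_assoc f y, ← hyf]
        simp only [mul_assoc]
    · rintro ⟨b, n, hn, hb⟩
      refine ⟨κ b, κ n, (h.nx hyf χ x n).1 hn, ?_⟩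
      rw [hb, map_add, h.Tx hyf, h.yl hyf]
  · change L.p 1 ⟨κ 1, _⟩ = 1
    rw [← L.one, ← sub_eq_zero, ← map_sub, L.ker]
    change κ 1 - (1 : A) ∈ Jx y l χ 1
    rw [h.one, ← neg_sub]
    refine Submodule.neg_mem _ ?_
    rw [ha0']
    exact Submodule.subset_span (Or.inl ⟨a0, rfl⟩)
  · intro x x' a b
    change L.p x ⟨κ a, _⟩ * L.p x' ⟨κ b, _⟩ = L.p (x * x') ⟨κ (a * b), _⟩
    rw [L.mul]
    congr 1
    exact Subtype.ext (h.mul _ _).symm
  · intro a ha
    exact ⟨pr a, by rw [h.kp, ha]⟩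
  · exact h.pf hyf

end Pool.Agent.PFE.H79
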