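import Pool.Agent.Helper79_PFE.Fan
import Pool.Agent.Helper32_PFC.QGW

/-!
# Squad PFE: gluing over a family `NN` of subgroups which is closed upwards (helper79)

Edit of `PFC/B5/QMW.lean` (helper46) and of `Helper32_PFC/QGW.lean` (helper32), with `NN Q` instead of
`¬ Q ≤ W`.
-/

set_option autoImplicit false

open scoped BigOperators TensorProduct

noncomputable section

namespace Pool.Agent.PFE.H79

open Pool.Agent.PFC Pool.Agent.PFE
open Pool.Agent.PFC.B5c.H32 (ml mem_ml map_ml perm_ml count_ml cnt)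

section poset

variable {V : Type} [CommGroup V] [Finite V]

/-- the finite type of the subgroups -/
@[reducible] def fts (V : Type) [CommGroup V] [Finite V] : Fintype (Subgroup V) :=
  Fintype.ofFinite _

attribute [local instance] fts

open Classical in
/-- the function `c` with `∑_(Q ≤ S) c(Q) = 1` for `S` in the family -/
def cN (NN : Subgroup V → Prop) : Subgroup V → ℤ :=
  (wellFounded_lt (α := Subgroup V)).fix fun S c =>
    if NN S then 1 - ∑ Q : {Q : Subgroup V // Q < S}, c Q.1 Q.2 else 0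

open Classical in
theorem cN_eq (NN : Subgroup V → Prop) (S : Subgroup V) :
    cN NN S = if NN S then 1 - ∑ Q : {Q : Subgroup V // Q < S}, cN NN Q.1 else 0 := by
  unfold cN
  rw [WellFounded.fix_eq]

open Classical in
theorem sum_lt (g : Subgroup V → ℤ) (S : Subgroup V) :
    ∑ Q : {Q : Subgroup V // Q < S}, g Q.1 = ∑ Q with Q < S, g Q := by
  rw [← Finset.sum_subtype]
  intro x
  simp

theorem cN_zero {NN : Subgroup V → Prop} {S : Subgroup V} (h : ¬ NN S) : cN NN S = 0 := by
  rw [cN_eq, if_neg h]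

open Classical in
theorem cN_lt {NN : Subgroup V → Prop} {S : Subgroup V} (h : NN S) :
    cN NN S = 1 - ∑ Q with Q < S, cN NN Q := by
  rw [cN_eq, if_pos h, sum_lt]

open Classical in
theorem split_le (g : Subgroup V → ℤ) (S : Subgroup V) :
    ∑ Q with Q ≤ S, g Q = g S + ∑ Q with Q < S, g Q := by
  have h1 : (Finset.univ.filter fun Q : Subgroup V => Q ≤ S) =
      insert S (Finset.univ.filter fun Q : Subgroup V => Q < S) := by
    ext Q
    simp only [Finset.mem_filter, Finset.mem_univ, true_and, Finset.mem_insert]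
    exact le_iff_eq_or_lt
  rw [h1, Finset.sum_insert]
  simp

open Classical in
theorem cN_le {NN : Subgroup V → Prop} {S : Subgroup V} (h : NN S) :
    ∑ Q with Q ≤ S, cN NN Q = 1 := by
  rw [split_le, cN_lt h]
  ring

theorem cN_map (NN : Subgroup V → Prop) (σ : MulAut V)
    (hN : ∀ Q : Subgroup V, NN (Q.map σ.toMonoidHom) ↔ NN Q) (S : Subgroup V) :
    cN NN (S.map σ.toMonoidHom) = cN NN S := by
  classical
  have hinj : Function.Injective σ.toMonoidHom := σ.injective
  have hle : ∀ A B : Subgroup V, A.map σ.toMonoidHom ≤ B.map σ.toMonoidHom ↔ A ≤ B :=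
    fun A B => Subgroup.map_le_map_iff_of_injective hinj
  have hsur : ∀ B : Subgroup V, ∃ A : Subgroup V, A.map σ.toMonoidHom = B := by
    intro B
    refine ⟨B.comap σ.toMonoidHom, ?_⟩
    exact Subgroup.map_comap_eq_self_of_surjective σ.surjective B
  induction S using WellFoundedLT.induction with
  | ind S ih =>
    by_cases h : NN S
    · rw [cN_lt h, cN_lt ((hN S).2 h)]
      congr 1
      symm
      refine Finset.sum_bij (fun Q _ => Q.map σ.toMonoidHom) ?_ ?_ ?_ ?_
      · intro Q hQ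
        simp only [Finset.mem_filter, Finset.mem_univ, true_and] at hQ ⊢
        rw [lt_iff_le_not_ge] at hQ ⊢
        exact ⟨(hle _ _).2 hQ.1, fun h' => hQ.2 ((hle _ _).1 h')⟩
      · intro A _ B _ hAB
        exact Subgroup.map_injective hinj hAB
      · intro B hB
        obtain ⟨A, rfl⟩ := hsur B
        simp only [Finset.mem_filter, Finset.mem_univ, true_and] at hB
        refine ⟨A, ?_, rfl⟩
        simp only [Finset.mem_filter, Finset.mem_univ, true_and]
        rw [lt_iff_le_not_ge] at hB ⊢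
        exact ⟨(hle _ _).1 hB.1, fun h' => hB.2 ((hle _ _).2 h')⟩
      · intro Q hQ
        simp only [Finset.mem_filter, Finset.mem_univ, true_and] at hQ
        exact (ih Q hQ).symm
    · rw [cN_zero h, cN_zero (fun h' => h ((hN S).1 h'))]

open Classical in
/-- the function `f` -/
def fN (NN : Subgroup V → Prop) (R S : Subgroup V) : ℤ := ∑ Q with Q ⊔ R = S, cN NN Q

theorem fN_not {NN : Subgroup V → Prop} {R S : Subgroup V} (h : ¬ R ≤ S) : fN NN R S = 0 := by
  classical
  unfold fN
  rw [Finset.filter_eq_empty_iff.2, Finset.sum_empty]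
  intro Q _ hQ
  exact h (hQ ▸ le_sup_right)

open Classical in
theorem fN_sum {NN : Subgroup V → Prop} (hup : ∀ Q T : Subgroup V, NN Q → Q ≤ T → NN T)
    {R S : Subgroup V} (hR : NN R) (h : R ≤ S) : ∑ T with T ≤ S, fN NN R T = 1 := by
  have hS : NN S := hup R S hR h
  rw [← cN_le hS]
  unfold fN
  have hm : ∀ Q ∈ (Finset.univ.filter fun Q : Subgroup V => Q ≤ S),
      Q ⊔ R ∈ (Finset.univ.filter fun T : Subgroup V => T ≤ S) := by
    intro Q hQ
    simp only [Finset.mem_filter, Finset.mem_univ, true_and] at hQ ⊢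
    exact sup_le hQ h
  rw [← Finset.sum_fiberwise_of_maps_to hm (cN NN)]
  refine Finset.sum_congr rfl fun T hT => ?_
  refine Finset.sum_congr ?_ fun _ _ => rfl
  ext Q
  simp only [Finset.mem_filter, Finset.mem_univ, true_and] at hT ⊢
  constructor
  · intro hQ
    exact ⟨(le_sup_left.trans hQ.le).trans hT, hQ⟩
  · rintro ⟨_, hQ⟩
    exact hQ

open Classical in
theorem fN_val {NN : Subgroup V → Prop} (hup : ∀ Q T : Subgroup V, NN Q → Q ≤ T → NN T)
    {R : Subgroup V} (hR : NN R) (S : Subgroup V) : fN NN R S = if S = R then 1 else 0 := by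
  induction S using WellFoundedLT.induction with
  | ind S ih =>
    by_cases h : R ≤ S
    · have h1 := fN_sum (NN := NN) hup hR h
      rw [split_le] at h1
      have h2 : ∑ T with T < S, fN NN R T = ∑ T with T < S, (if T = R then (1 : ℤ) else 0) := by
        refine Finset.sum_congr rfl fun T hT => ih T ?_
        simpa using hT
      rw [h2, Finset.sum_ite_eq'] at h1
      by_cases h3 : S = R
      · rw [if_pos h3]
        rw [if_neg] at h1
        · linarith
        · rw [h3]
          simp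
      · rw [if_neg h3]
        rw [if_pos] at h1
        · linarith
        · simp only [Finset.mem_filter, Finset.mem_univ, true_and]
          exact lt_of_le_of_ne h (Ne.symm h3)
    · rw [fN_not h, if_neg]
      intro h'
      exact h h'.ge

theorem fin_eq (NN : Subgroup V → Prop) (R S : Subgroup V) :
    ∑ᶠ Q ∈ {Q : Subgroup V | NN Q ∧ Q ⊔ R = S}, - cN NN Q = - fN NN R S := by
  classical
  rw [finsum_mem_eq_finite_toFinset_sum _ (Set.toFinite _), Finset.sum_neg_distrib]
  congr 1
  unfold fN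
  refine Finset.sum_subset ?_ ?_
  · intro Q hQ
    simp only [Set.Finite.mem_toFinset, Set.mem_ofPred_eq] at hQ
    simp only [Finset.mem_filter, Finset.mem_univ, true_and]
    exact hQ.2
  · intro Q hQ hQ'
    simp only [Finset.mem_filter, Finset.mem_univ, true_and] at hQ
    simp only [Set.Finite.mem_toFinset, Set.mem_ofPred_eq] at hQ'
    refine cN_zero ?_
    intro h
    exact hQ' ⟨h, hQ⟩

end poset

/-- The Moebius function of a family of subgroups which is closed upwards. -/
theorem qmn (V : Type) [CommGroup V] [Finite V] (NN : Subgroup V → Prop)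
    (hup : ∀ Q T : Subgroup V, NN Q → Q ≤ T → NN T) : ∃ μ : Subgroup V → ℤ,
    (∀ σ : MulAut V, (∀ Q : Subgroup V, NN (Q.map σ.toMonoidHom) ↔ NN Q) → ∀ Q : Subgroup V,
      μ (Q.map σ.toMonoidHom) = μ Q) ∧
    ∀ R S : Subgroup V, NN R →
      (S = R → ∑ᶠ Q ∈ {Q : Subgroup V | NN Q ∧ Q ⊔ R = S}, μ Q = -1) ∧
      (S ≠ R → ∑ᶠ Q ∈ {Q : Subgroup V | NN Q ∧ Q ⊔ R = S}, μ Q = 0) := by
  refine ⟨fun Q => - cN NN Q, ?_, ?_⟩
  · intro σ hσ Q
    change - cN NN (Q.map σ.toMonoidHom) = - cN NN Q
    rw [cN_map NN σ hσ Q]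
  · intro R S hR
    constructor
    · intro h
      rw [fin_eq, fN_val hup hR, if_pos h]
    · intro h
      rw [fin_eq, fN_val hup hR, if_neg h, neg_zero]

/-- Gluing over a family. -/
theorem qgn (hQlq : QlqStmt) (hQlp : QlpStmt) (hQis : QisStmt)
    (hQsn : QsnStmt) (hQlr : QlrStmt) (hQdi : QdiStmt) : QgnStmt := by
  intro ℓ _ F V _ _ _ _ NN Sg S hp hNt hup hSg hS hBQ hone hiso
  classical
  have : Fintype (Subgroup V) := Fintype.ofFinite _
  obtain ⟨μ, hμ1, hμ2⟩ := qmn V NN hup
  obtain ⟨i_rf, i_sy, -, i_BQ, -, -, i_Ret, -, -, i_cm, -, -, -, i_tr, i_one, -⟩ := hQis F V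
  obtain ⟨U, hU⟩ : ∃ U : Finset (Subgroup V), ∀ Q, Q ∈ U ↔ NN Q :=
    ⟨Finset.univ.filter (fun Q => NN Q), fun Q => by simp⟩
  obtain ⟨L, hL⟩ : ∃ L : List (Subgroup V × Bool), (L : Multiset (Subgroup V × Bool)) = ml U μ :=
    ⟨(ml U μ).toList, Multiset.coe_toList _⟩
  have hLm : ∀ p ∈ L, NN p.1 := by
    intro p hp'
    have h1 : p ∈ (L : Multiset (Subgroup V × Bool)) := Multiset.mem_coe.2 hp'
    rw [hL] at h1
    exact (hU _).1 (mem_ml h1)
  -- a product over any list with entries in the family has the trivial quotient at `⊤`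
  have hTop : ∀ L' : List (Subgroup V × Bool), (∀ p ∈ L', NN p.1) →
      BQ (prd S L') (IA.one F V) ⊤ := by
    intro L' hL'
    have h1 := (hQlq ℓ F V (Subgroup V) (Subgroup V) S S (fun Q => Q ⊔ ⊤) L' hp).2.2.1 ⊤
      (fun p hp' => hBQ p.1 (hL' p hp') ⊤)
    have h2 := (hQlq ℓ F V (Subgroup V) (Subgroup V) S S (fun Q => Q ⊔ ⊤)
      (L'.map (fun p => (p.1 ⊔ ⊤, p.2))) hp).2.2.2.2 (by
        intro p hp'
        obtain ⟨q, -, rfl⟩ := List.mem_map.1 hp'
        change Iso (S (q.1 ⊔ ⊤)) _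
        rw [sup_top_eq]
        exact hone)
    exact i_BQ _ _ _ _ ⊤ (i_rf _) h2 h1
  -- the quotient at any subgroup
  have hAny : ∀ R : Subgroup V,
      BQ (prd S L) (prd S (L.map (fun p : Subgroup V × Bool => (p.1 ⊔ R, p.2)))) R := by
    intro R
    exact (hQlq ℓ F V (Subgroup V) (Subgroup V) S S (fun Q => Q ⊔ R) L hp).2.2.1 R
      (fun p hp' => hBQ p.1 (hLm p hp') R)
  have hMx : Mx (prd S L) := (hQlq ℓ F V (Subgroup V) (Subgroup V) S S id L hp).1
    (fun p hp' => (hS p.1 (hLm p hp')).1)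
  refine ⟨prd S L, hMx, (hQlq ℓ F V (Subgroup V) (Subgroup V) S S id L hp).2.1
    (fun p hp' => (hS p.1 (hLm p hp')).2), ?_, hTop L hLm, ?_, ?_⟩
  · intro σ hσ
    apply (hQsn F V).1 _ _ hMx
    have h1 := (hQlq ℓ F V (Subgroup V) (Subgroup V) S S (fun Q => Q.map σ.toMonoidHom) L
      hp).2.2.2.1 σ (fun p hp' => hiso σ hσ p.1 (hLm p hp'))
    have h2 : (L.map (fun p => (p.1.map σ.toMonoidHom, p.2))).Perm L := by
      rw [← Multiset.coe_eq_coe, ← Multiset.map_coe, hL]
      refine perm_ml U μ (MulEquiv.mapSubgroup σ).toEquiv ?_ (fun Q => hμ1 σ (hSg σ hσ) Q)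
      intro Q
      rw [hU, hU]
      exact (hSg σ hσ Q).symm
    have h4 := i_tr σ 1 _ _ _ h1 ((i_one _ _).2 (hQlp F V (Subgroup V) S _ _ h2))
    rw [one_mul] at h4
    exact h4
  · intro R
    refine ⟨_, ?_, hAny R⟩
    refine (hQlq ℓ F V (Subgroup V) (Subgroup V) S S id _ hp).1 ?_
    intro p hp'
    obtain ⟨q, hq, rfl⟩ := List.mem_map.1 hp'
    exact (hS _ (hup _ _ (hLm q hq) le_sup_left)).1
  · intro R hR
    obtain ⟨LR, hLR⟩ : ∃ LR, LR = L.map (fun p : Subgroup V × Bool => (p.1 ⊔ R, p.2)) :=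
      ⟨_, rfl⟩
    have hLRm : ∀ p ∈ (R, true) :: LR, NN p.1 := by
      intro p hp'
      rcases List.mem_cons.1 hp' with rfl | h
      · exact hR
      · rw [hLR] at h
        obtain ⟨q, -, rfl⟩ := List.mem_map.1 h
        exact hup R _ hR le_sup_right
    have hcm : Iso (prd S ((R, true) :: LR)) ((prd S LR).tens (S R)) := i_cm _ _
    refine ⟨prd S LR, ?_, ?_, ?_⟩
    · rw [hLR]
      exact hAny R
    · apply i_Ret _ _ hcm
      apply hQlr F V (Subgroup V) S _ (fun p hp' => ⟨(hS p.1 (hLRm p hp')).1, ?_⟩)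
      · intro T
        have h1 := count_ml U μ (fun Q => Q ⊔ R) T
        rw [← hL, Multiset.map_coe, ← hLR] at h1
        have h2 : ∑ Q ∈ U.filter (fun Q => Q ⊔ R = T), μ Q =
            ∑ᶠ Q ∈ {Q : Subgroup V | NN Q ∧ Q ⊔ R = T}, μ Q := by
          rw [finsum_mem_eq_finite_toFinset_sum _ (Set.toFinite _)]
          refine Finset.sum_congr ?_ fun _ _ => rfl
          ext Q
          simp [hU]
        rw [h2] at h1
        rw [cnt, cnt, ← Multiset.cons_coe, Multiset.count_cons, Multiset.count_cons]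
        by_cases h3 : T = R
        · rw [(hμ2 R T hR).1 h3] at h1
          subst h3
          rw [if_pos rfl, if_neg (by simp)]
          omega
        · rw [(hμ2 R T hR).2 h3] at h1
          rw [if_neg (fun h => h3 (congrArg Prod.fst h)),
            if_neg (fun h => h3 (congrArg Prod.fst h))]
          omega
      · obtain ⟨β, s, hb⟩ := hBQ p.1 (hLRm p hp') ⊤
        have h1 := hQdi ℓ F V (S p.1).A (S (p.1 ⊔ ⊤)).A _ _ ⊤ β s hp hb.toBrS
        obtain ⟨e, -⟩ := hone
        rw [h1, sup_top_eq]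
        have h2 : Module.finrank F (S ⊤).A = 1 := by
          rw [e.toLinearEquiv.finrank_eq]
          exact Module.finrank_self F
        rw [h2, Nat.cast_one]
        exact one_ne_zero
    · exact i_BQ _ _ _ _ ⊤ hcm (i_rf _) (hTop _ hLRm)

end Pool.Agent.PFE.H79
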