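import Pool.Agent.Helper79_PFE.AsmN
import Pool.Agent.Helper79_PFE.Qgn

/-!
# Squad PFE: part (0) for a family of subgroups (helper79), unconditional
-/

open scoped BigOperators TensorProduct

noncomputable section

namespace Pool.Agent.PFE.H79

open Pool.Agent.PFC Pool.Agent.PFE
open Pool.Agent.PFC.B5c (bd)

theorem qgn_ : QgnStmt :=
  qgn (H81.qlq qte_ H13.qop H62.qmx H20.qcp H85Q.qis) (H63.qlp H85Q.qis) H85Q.qis H69.qsn
    (H3.qlr (H63.qlp H85Q.qis) H85Q.qis H72.qre H6.qrt) H44.qdi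

/-- Part (0) for a family of subgroups. -/
theorem pmzN (hqgn : QgnStmt) : PmzNStmt := by
  intro F V E A _ _ _ _ _ _ _ _ ℓ _ φ NN α hC hI
  classical
  have := hI.fin
  have hp : Fact ℓ.Prime := ⟨hC.pr⟩
  obtain ⟨N, Y', j, κ, n, hn0, hNe, hκ, hjf, hjj, hj1, ⟨lam, hlam⟩, hps, hYt, hun, hCPX, hCPY,
    hRzN, hRzY, hNa, hpm⟩ := coreN hqgn F V E A ℓ φ NN α hC hI
  refine ⟨Y'.A, inferInstance, inferInstance, Y'.ι, hpm, ?_⟩
  have hcn : Cnr j κ := ⟨hκ.inj, hκ.mul, hκ.one, hκ.ran⟩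
  have hzm := H52.zmx F N.A A n hn0 hNe
  have hlcn : B5c.LcnStmt := B5c.H65.lcn
  have hce : ∀ z : (N.tens (bd F α)).A, (∀ a, z * a = a * z) → IsUnit z ∨ IsNilpotent z := by
    intro z hz
    obtain ⟨c, hc, rfl⟩ := hzm.1 z hz
    have hcz : c ∈ Cz F α ⊤ := by
      rw [Cz, Subalgebra.mem_centralizer_iff]
      intro g _
      exact (hc g).symm
    rcases (hlcn F (Cz F α ⊤) hI.loc).1 ⟨c, hcz⟩ with h | h
    · left
      have h2 : IsUnit c := by
        have := h.map (Cz F α ⊤).val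
        exact this
      have := h2.map (Algebra.TensorProduct.includeRight : A →ₐ[F] N.A ⊗[F] A)
      exact this
    · right
      have h2 : IsNilpotent c := by
        obtain ⟨k, hk⟩ := h
        exact ⟨k, by simpa using congrArg Subtype.val hk⟩
      exact h2.map (Algebra.TensorProduct.includeRight : A →ₐ[F] N.A ⊗[F] A)
  have hfull : (1 : (N.tens (bd F α)).A) ∈ Submodule.span F {x | ∃ a b, x = a * j * b} :=
    funr ℓ F V E (N.tens (bd F α)).A φ (N.tens (bd F α)).ι lam j hC.pg hC.cop hC.fa hlam hps hYt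
      hun hce hjf hjj hj1
  refine ⟨?_, ?_⟩
  · apply le_antisymm
    · exact (H63.lsc F _ Y'.A j κ hcn).trans (H49c.lsm H91.lsf F N.A A n hn0 hNe)
    · exact (B5c.H60.lsn H63.lsc F N.A A n hn0 hNe).trans (H91.lsf F _ Y'.A j κ hcn hfull)
  · exact (B5c.H76.zcn F _ Y'.A j κ hcn hfull).trans hzm.2

theorem pmzN_ : PmzNStmt := pmzN qgn_

end Pool.Agent.PFE.H79
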