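import Pool.Agent.Helper79_PFE.SznN
import Pool.Agent.Helper79_PFE.PmzN
import Pool.Agent.Helper56_PFE.TWL
import Pool.Agent.Helper10_PFE.PTT
import Pool.Agent.Helper22_PFE.SGT
import Pool.Agent.Helper20_PFE.TBU
import Pool.Agent.Helper17_PFE.TBN
import Pool.Agent.Helper64_PFE.SGC
import Pool.Agent.Helper9_PFE.SGF
import Pool.Agent.Helper72_PFE.ABQ
import Pool.Agent.Helper29_PFE.FLA
import Pool.Agent.Helper32_PFE.FLZ

/-!
# Squad PFE, block S: the top statement, without hypotheses (helper79)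
-/

noncomputable section

namespace Pool.Agent.PFE.H79

open Pool.Agent.PFE Pool.Agent.PFE.S

theorem szn_ : SznStmt :=
  szn qgn_ H56.twl H10.ptt H22.sgt H20.tbu H17.tbn H64.sgc H9.sgf H72.abq H29.fla H32.flz

end Pool.Agent.PFE.H79
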