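import Pool.Agent.PFE.DefsN
import Pool.Agent.Helper84_PFD.UNT

/-!
# PFE: units which are multiplicative up to scalars, for a family `NN` (proof of helper84)
-/

open scoped BigOperators

noncomputable section

namespace Pool.Agent.PFE.H79

open Pool.Agent.PFC Pool.Agent.PFD Pool.Agent.PFD.D6 Pool.Agent.PFD.D6.H84

/-- units for a family -/
theorem unn (F V E A : Type) [Field F] [IsAlgClosed F] [CommGroup V] [Fintype V] [Group E]
    [Fintype E] [Ring A] [Algebra F A] (ℓ : ℕ) [CharP F ℓ] (φ : E →* MulAut V)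
    (NN' : Subgroup V → Prop) (α : V →* A) (hC : Ctn ℓ φ NN') (hP : PMidN F φ NN' α) :
    ∃ (n n' : E → A) (c : E → E → F), Unt φ α n n' c := by
  classical
  have hfin := hP.fin
  have hloc := hP.loc
  have hF := fil (F := F) α hloc
  obtain ⟨K, hK⟩ := nn_nil (F := F) α
  have hE : (Fintype.card E : F) ≠ 0 := by
    intro h
    rw [CharP.cast_eq_zero_iff F ℓ, ← Nat.card_eq_fintype_card] at h
    exact hC.cop h
  choose y y' hr hl htw using hP.uni
  have htw' : ∀ e u, y' e * α (φ e u) = α u * y' e := by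
    intro e u
    calc y' e * α (φ e u) = y' e * α (φ e u) * (y e * y' e) := by rw [hr, mul_one]
      _ = y' e * (α (φ e u) * y e) * y' e := by noncomm_ring
      _ = y' e * (y e * α u) * y' e := by rw [htw]
      _ = (y' e * y e) * (α u * y' e) := by noncomm_ring
      _ = α u * y' e := by rw [hl, one_mul]
  have htw'' : ∀ e u, y' e * α u = α (φ e⁻¹ u) * y' e := by
    intro e u
    rw [← htw', ← MulAut.mul_apply, ← map_mul, mul_inv_cancel, map_one, MulAut.one_apply]
  have cjL : ∀ e, ∀ x ∈ Cz F α ⊤, y e * x * y' e ∈ Cz F α ⊤ := by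
    intro e x hx
    rw [mem_Cz] at hx ⊢
    intro u
    have e1 : α u * y e = y e * α (φ e⁻¹ u) := by
      rw [htw, ← MulAut.mul_apply, ← map_mul, mul_inv_cancel, map_one, MulAut.one_apply]
    calc α u * (y e * x * y' e) = (α u * y e) * x * y' e := by noncomm_ring
      _ = y e * (α (φ e⁻¹ u) * x) * y' e := by rw [e1]; noncomm_ring
      _ = y e * x * (α (φ e⁻¹ u) * y' e) := by rw [hx]; noncomm_ring
      _ = y e * x * y' e * α u := by rw [← htw'']; noncomm_ring
  have cjL' : ∀ e, ∀ x ∈ Cz F α ⊤, y' e * x * y e ∈ Cz F α ⊤ := by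
    intro e x hx
    rw [mem_Cz] at hx ⊢
    intro u
    calc α u * (y' e * x * y e) = (α u * y' e) * x * y e := by noncomm_ring
      _ = y' e * (α (φ e u) * x) * y e := by rw [← htw']; noncomm_ring
      _ = y' e * x * (α (φ e u) * y e) := by rw [hx]; noncomm_ring
      _ = y' e * x * y e * α u := by rw [← htw]; noncomm_ring
  have cjN : ∀ e, ∀ n ∈ NN (F := F) α, y e * n * y' e ∈ NN (F := F) α := by
    intro e n hn
    obtain ⟨z, hz, rfl⟩ := (mem_NN α n).1 hn
    refine (mem_NN α _).2 ⟨⟨_, cjL e z z.2⟩, ?_, rfl⟩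
    rw [mem_jac (F := F)] at hz ⊢
    intro hu
    apply hz
    have hart : IsArtinianRing (Cz F α ⊤) := IsArtinianRing.of_finite F _
    obtain ⟨w, hw⟩ := hu.exists_right_inv
    have hw' : y e * (z : A) * y' e * (w : A) = 1 := congrArg Subtype.val hw
    refine IsUnit.of_mul_eq_one ⟨_, cjL' e w w.2⟩ (Subtype.ext ?_)
    show (z : A) * (y' e * (w : A) * y e) = 1
    calc (z : A) * (y' e * (w : A) * y e)
        = 1 * (z : A) * y' e * (w : A) * y e := by noncomm_ring
      _ = (y' e * y e) * (z : A) * y' e * (w : A) * y e := by rw [hl]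
      _ = y' e * (y e * (z : A) * y' e * (w : A)) * y e := by noncomm_ring
      _ = 1 := by rw [hw', mul_one, hl]
  have h0 : ∀ e f, ∃ c : F, c ≠ 0 ∧ ∃ j ∈ NN (F := F) α,
      y e * y f = c • ((1 + j) * y (e * f)) := by
    intro e f
    have hz : y e * y f * y' (e * f) ∈ Cz F α ⊤ := by
      rw [mem_Cz]
      intro u
      have e1 : y' (e * f) * α u = α (φ (e * f)⁻¹ u) * y' (e * f) := htw'' _ _
      have e2 : φ e (φ f (φ (e * f)⁻¹ u)) = u := by
        rw [← MulAut.mul_apply, ← MulAut.mul_apply, ← map_mul, ← map_mul, mul_inv_cancel,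
          map_one, MulAut.one_apply]
      calc α u * (y e * y f * y' (e * f))
          = (α (φ e (φ f (φ (e * f)⁻¹ u))) * y e) * y f * y' (e * f) := by
            rw [e2]; noncomm_ring
        _ = y e * (α (φ f (φ (e * f)⁻¹ u)) * y f) * y' (e * f) := by rw [← htw]; noncomm_ring
        _ = y e * y f * (α (φ (e * f)⁻¹ u) * y' (e * f)) := by rw [← htw]; noncomm_ring
        _ = y e * y f * y' (e * f) * α u := by rw [← e1]; noncomm_ring
    have hz' : y (e * f) * y' f * y' e ∈ Cz F α ⊤ := by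
      rw [mem_Cz]
      intro u
      have e2 : φ (e * f) (φ f⁻¹ (φ e⁻¹ u)) = u := by
        rw [← MulAut.mul_apply, ← MulAut.mul_apply, ← map_mul, ← map_mul]
        have : e * f * f⁻¹ * e⁻¹ = 1 := by group
        rw [this, map_one, MulAut.one_apply]
      calc α u * (y (e * f) * y' f * y' e)
          = (α (φ (e * f) (φ f⁻¹ (φ e⁻¹ u))) * y (e * f)) * y' f * y' e := by
            rw [e2]; noncomm_ring
        _ = y (e * f) * (α (φ f⁻¹ (φ e⁻¹ u)) * y' f) * y' e := by rw [← htw]; noncomm_ring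
        _ = y (e * f) * y' f * (α (φ e⁻¹ u) * y' e) := by rw [← htw'']; noncomm_ring
        _ = y (e * f) * y' f * y' e * α u := by rw [← htw'']; noncomm_ring
    obtain ⟨c, hc⟩ := exists_scalar (F := F) (⟨_, hz⟩ : Cz F α ⊤)
    have hun : IsUnit (⟨_, hz⟩ : Cz F α ⊤) := by
      have hart : IsArtinianRing (Cz F α ⊤) := IsArtinianRing.of_finite F _
      refine IsUnit.of_mul_eq_one ⟨_, hz'⟩ (Subtype.ext ?_)
      show y e * y f * y' (e * f) * (y (e * f) * y' f * y' e) = 1
      calc y e * y f * y' (e * f) * (y (e * f) * y' f * y' e)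
          = y e * y f * (y' (e * f) * y (e * f)) * y' f * y' e := by noncomm_ring
        _ = y e * (y f * y' f) * y' e := by rw [hl]; noncomm_ring
        _ = 1 := by rw [hr, mul_one, hr]
    have hc0 : c ≠ 0 := by
      rintro rfl
      rw [map_zero, sub_zero, mem_jac (F := F)] at hc
      exact hc hun
    refine ⟨c, hc0, c⁻¹ • (y e * y f * y' (e * f) - c • (1 : A)), ?_, ?_⟩
    · apply Submodule.smul_mem
      refine (mem_NN α _).2 ⟨_, hc, ?_⟩
      show y e * y f * y' (e * f) - algebraMap F A c = _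
      rw [Algebra.smul_def, mul_one]
    · rw [smul_sub, smul_smul, inv_mul_cancel₀ hc0, one_smul, add_sub_cancel, smul_mul_assoc,
        smul_smul, mul_inv_cancel₀ hc0, one_smul, mul_assoc (y e * y f), hl, mul_one]
  choose c hc hj using h0
  have ap : Ap (NN (F := F) α) y y' c 1 := by
    refine ⟨hl, hr, cjN, hc, ?_⟩
    intro e f
    rw [pow_one]
    exact hj e f
  obtain ⟨t, t', ht, ht', h1, h2, ap'⟩ := iter hF K hK hE y y' c ap (K + 1) (by omega)
  have hK1 : (NN (F := F) α) ^ (K + 1) = ⊥ := by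
    rw [pow_succ, hK, Submodule.bot_mul]
  have hm : ∀ e f, (t e * y e) * (t f * y f) = c e f • (t (e * f) * y (e * f)) := by
    intro e f
    obtain ⟨j, hj, h⟩ := ap'.mul e f
    rw [hK1, Submodule.mem_bot] at hj
    rw [hj, add_zero, one_mul] at h
    exact h
  have hone : t 1 * y 1 = c 1 1 • 1 := by
    have h3 := hm 1 1
    rw [mul_one] at h3
    have h4 := congrArg (fun z => z * (y' 1 * t' 1)) h3
    simp only [smul_mul_assoc] at h4
    have h5 : t 1 * y 1 * (y' 1 * t' 1) = 1 := ap'.ri 1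
    rw [mul_assoc (t 1 * y 1), h5, mul_one] at h4
    exact h4
  refine ⟨fun e => (c 1 1)⁻¹ • (t e * y e), fun e => (c 1 1) • (y' e * t' e),
    fun e f => (c 1 1)⁻¹ * c e f, ?_, ?_, ?_, ?_, ?_⟩
  · show (c 1 1)⁻¹ • (t 1 * y 1) = 1
    rw [hone, smul_smul, inv_mul_cancel₀ (hc 1 1), one_smul]
  · intro e
    have h5 : y' e * t' e * (t e * y e) = 1 := ap'.li e
    show (c 1 1) • (y' e * t' e) * (c 1 1)⁻¹ • (t e * y e) = 1
    rw [smul_mul_smul_comm, h5, mul_inv_cancel₀ (hc 1 1), one_smul]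
  · intro e
    have h5 : t e * y e * (y' e * t' e) = 1 := ap'.ri e
    show (c 1 1)⁻¹ • (t e * y e) * (c 1 1) • (y' e * t' e) = 1
    rw [smul_mul_smul_comm, h5, inv_mul_cancel₀ (hc 1 1), one_smul]
  · intro e u
    show (c 1 1)⁻¹ • (t e * y e) * α u = α (φ e u) * ((c 1 1)⁻¹ • (t e * y e))
    rw [smul_mul_assoc, mul_smul_comm]
    congr 1
    rw [mul_assoc, htw, ← mul_assoc, ← mul_assoc, (mem_Cz α _).1 (ht e)]
  · intro e f
    show (c 1 1)⁻¹ • (t e * y e) * (c 1 1)⁻¹ • (t f * y f) =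
      ((c 1 1)⁻¹ * c e f) • ((c 1 1)⁻¹ • (t (e * f) * y (e * f)))
    rw [smul_mul_smul_comm, hm, smul_smul, smul_smul]
    congr 1
    ring

end Pool.Agent.PFE.H79
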