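import Pool.Agent.Helper79_PFE.RowsN
import Pool.Agent.Helper79_PFE.Unn
import Pool.Agent.Helper79_PFD.TopD6

/-!
# PFE: `TxnStmt` (the twisted extension for a family `NN`)
-/

open scoped BigOperators

noncomputable section

namespace Pool.Agent.PFE.H79

open Pool.Agent.PFC Pool.Agent.PFD Pool.Agent.PFD.D6
open Pool.Agent.PFC.B5a (FvtStmt TrsStmt BkiStmt FdbStmt Du)

/-- from relative separability over `F_c[V : E]` to relative separability over `F V` -/
theorem sepV {F V E A K : Type} [Field F] [CommGroup V] [Group E] [Fintype E] [Ring A]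
    [Algebra F A] [Fintype K] (φ : E →* MulAut V) (z : Coc F E) (j : CP (D0 φ z) →ₐ[F] A)
    (hcard : (Nat.card E : F) ≠ 0) (s : B1.Sep (CP (D0 φ z)) A K j.toRingHom) :
    Nonempty (B1.Sep (MonoidAlgebra F V) A (K × E) (j.comp (CP.iS (D0 φ z))).toRingHom) := by
  classical
  have hinv1 : ∀ e, CP.n (D0 φ z) e * ni (D0 φ z) e = 1 := fun e => CP.n_mul_inv e
  have hinv2 : ∀ e, ni (D0 φ z) e * CP.n (D0 φ z) e = 1 := fun e => CP.inv_mul_n e
  have hj1 : ∀ e, j (CP.n (D0 φ z) e) * j (ni (D0 φ z) e) = 1 := fun e => by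
    rw [← map_mul, hinv1, map_one]
  have hj2 : ∀ e, j (ni (D0 φ z) e) * j (CP.n (D0 φ z) e) = 1 := fun e => by
    rw [← map_mul, hinv2, map_one]
  have hcE : (Nat.card E : F) = (Fintype.card E : F) := by
    rw [Nat.card_eq_fintype_card]
  refine ⟨⟨fun k => s.u k.1 * j (CP.n (D0 φ z) k.2),
    fun k => (Nat.card E : F)⁻¹ • (j (ni (D0 φ z) k.2) * s.v k.1), ?_, ?_⟩⟩
  · rw [Fintype.sum_prod_type]
    have h1 : ∀ k, ∑ e, s.u k * j (CP.n (D0 φ z) e) *
        ((Nat.card E : F)⁻¹ • (j (ni (D0 φ z) e) * s.v k)) = s.u k * s.v k := by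
      intro k
      have h2 : ∀ e, s.u k * j (CP.n (D0 φ z) e) *
          ((Nat.card E : F)⁻¹ • (j (ni (D0 φ z) e) * s.v k)) =
          (Nat.card E : F)⁻¹ • (s.u k * s.v k) := by
        intro e
        rw [mul_smul_comm]
        congr 1
        calc s.u k * j (CP.n (D0 φ z) e) * (j (ni (D0 φ z) e) * s.v k)
            = s.u k * (j (CP.n (D0 φ z) e) * j (ni (D0 φ z) e)) * s.v k := by noncomm_ring
          _ = s.u k * s.v k := by rw [hj1, mul_one]
      rw [Finset.sum_congr rfl fun e _ => h2 e, Finset.sum_const, Finset.card_univ,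
        ← Nat.cast_smul_eq_nsmul F, smul_smul, ← hcE, mul_inv_cancel₀ hcard, one_smul]
    rw [Finset.sum_congr rfl fun k _ => h1 k]
    exact s.one
  · intro X _ B hB x
    -- the balanced map over `F_c[V : E]`
    let T : A →+ A →+ X := AddMonoidHom.mk' (fun a => AddMonoidHom.mk' (fun b =>
      ∑ e, B (a * j (CP.n (D0 φ z) e)) ((Nat.card E : F)⁻¹ • (j (ni (D0 φ z) e) * b)))
      (fun b b' => by
        rw [← Finset.sum_add_distrib]
        apply Finset.sum_congr rfl
        intro e _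
        rw [mul_add, smul_add, map_add])) (fun a a' => by
        apply AddMonoidHom.ext
        intro b
        show ∑ e, B ((a + a') * j (CP.n (D0 φ z) e))
            ((Nat.card E : F)⁻¹ • (j (ni (D0 φ z) e) * b)) =
          (∑ e, B (a * j (CP.n (D0 φ z) e)) ((Nat.card E : F)⁻¹ • (j (ni (D0 φ z) e) * b))) +
          ∑ e, B (a' * j (CP.n (D0 φ z) e)) ((Nat.card E : F)⁻¹ • (j (ni (D0 φ z) e) * b))
        rw [← Finset.sum_add_distrib]
        apply Finset.sum_congr rfl
        intro e _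
        rw [add_mul, map_add, AddMonoidHom.add_apply])
    have hT : ∀ a b, T a b = ∑ e, B (a * j (CP.n (D0 φ z) e))
        ((Nat.card E : F)⁻¹ • (j (ni (D0 φ z) e) * b)) := fun _ _ => rfl
    have key : ∀ (a b : A) (m : MonoidAlgebra F V) (g : E),
        T (a * j (CP.iS (D0 φ z) m * CP.n (D0 φ z) g)) b =
          T a (j (CP.iS (D0 φ z) m * CP.n (D0 φ z) g) * b) := by
      intro a b m g
      rw [hT, hT, ← Equiv.sum_comp (Equiv.mulLeft g) (fun e => B (a * j (CP.n (D0 φ z) e))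
        ((Nat.card E : F)⁻¹ • (j (ni (D0 φ z) e) *
          (j (CP.iS (D0 φ z) m * CP.n (D0 φ z) g) * b))))]
      apply Finset.sum_congr rfl
      intro e _
      rw [Equiv.coe_mulLeft]
      obtain ⟨t, ht⟩ : ∃ t, CP.iS (D0 φ z) m * CP.n (D0 φ z) g * CP.n (D0 φ z) e =
          CP.n (D0 φ z) (g * e) * CP.iS (D0 φ z) t := by
        refine ⟨((D0 φ z).c g e : F) • (D0 φ z).act (g * e)⁻¹ m, ?_⟩
        rw [CP.n_mul_iS, map_smul, mul_assoc, CP.n_mul_n, mul_smul_comm]
        have h3 : (D0 φ z).act (g * e) ((D0 φ z).act (g * e)⁻¹ m) = m := by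
          rw [← AlgEquiv.mul_apply, ← map_mul, mul_inv_cancel, map_one, AlgEquiv.one_apply]
        rw [h3, map_smul, smul_mul_assoc]
      have ht2 : CP.iS (D0 φ z) t * ni (D0 φ z) e =
          ni (D0 φ z) (g * e) * (CP.iS (D0 φ z) m * CP.n (D0 φ z) g) := by
        calc CP.iS (D0 φ z) t * ni (D0 φ z) e
            = (ni (D0 φ z) (g * e) * CP.n (D0 φ z) (g * e)) * CP.iS (D0 φ z) t *
                ni (D0 φ z) e := by rw [hinv2, one_mul]
          _ = ni (D0 φ z) (g * e) * (CP.n (D0 φ z) (g * e) * CP.iS (D0 φ z) t) *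
                ni (D0 φ z) e := by rw [mul_assoc (ni (D0 φ z) (g * e))]
          _ = ni (D0 φ z) (g * e) * (CP.iS (D0 φ z) m * CP.n (D0 φ z) g * CP.n (D0 φ z) e) *
                ni (D0 φ z) e := by rw [ht]
          _ = ni (D0 φ z) (g * e) * (CP.iS (D0 φ z) m * CP.n (D0 φ z) g) *
                (CP.n (D0 φ z) e * ni (D0 φ z) e) := by
                  simp only [mul_assoc]
          _ = _ := by rw [hinv1, mul_one]
      have h4 : a * j (CP.iS (D0 φ z) m * CP.n (D0 φ z) g) * j (CP.n (D0 φ z) e) =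
          a * j (CP.n (D0 φ z) (g * e)) * j (CP.iS (D0 φ z) t) := by
        rw [mul_assoc, ← map_mul, ht, map_mul, mul_assoc]
      have h5 : j (CP.iS (D0 φ z) t) * ((Nat.card E : F)⁻¹ • (j (ni (D0 φ z) e) * b)) =
          (Nat.card E : F)⁻¹ • (j (ni (D0 φ z) (g * e)) *
            (j (CP.iS (D0 φ z) m * CP.n (D0 φ z) g) * b)) := by
        rw [mul_smul_comm, ← mul_assoc, ← map_mul, ht2, map_mul, mul_assoc]
      rw [h4]
      have h6 := hB (a * j (CP.n (D0 φ z) (g * e))) t
        ((Nat.card E : F)⁻¹ • (j (ni (D0 φ z) e) * b))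
      have h7 : (j.comp (CP.iS (D0 φ z))).toRingHom t = j (CP.iS (D0 φ z) t) := rfl
      rw [h7, h5] at h6
      exact h6
    have hbal : ∀ (a : A) (γ : CP (D0 φ z)) (b : A),
        T (a * j.toRingHom γ) b = T a (j.toRingHom γ * b) := by
      intro a γ b
      show T (a * j γ) b = T a (j γ * b)
      rw [← CP.sum_iS_n γ, map_sum, Finset.mul_sum, Finset.sum_mul, map_sum, map_sum,
        AddMonoidHom.finsetSum_apply]
      exact Finset.sum_congr rfl fun e _ => key a b _ e
    have h8 := s.bal X T hbal x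
    simp only [hT] at h8
    rw [Fintype.sum_prod_type, Fintype.sum_prod_type]
    calc ∑ k, ∑ e, B (x * (s.u k * j (CP.n (D0 φ z) e)))
            ((Nat.card E : F)⁻¹ • (j (ni (D0 φ z) e) * s.v k))
        = ∑ k, ∑ e, B (x * s.u k * j (CP.n (D0 φ z) e))
            ((Nat.card E : F)⁻¹ • (j (ni (D0 φ z) e) * s.v k)) := by
          refine Finset.sum_congr rfl fun k _ => Finset.sum_congr rfl fun e _ => ?_
          rw [mul_assoc]
      _ = _ := h8
      _ = ∑ k, ∑ e, B (s.u k * j (CP.n (D0 φ z) e))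
            ((Nat.card E : F)⁻¹ • (j (ni (D0 φ z) e) * s.v k) * x) := by
          refine Finset.sum_congr rfl fun k _ => Finset.sum_congr rfl fun e _ => ?_
          rw [smul_mul_assoc, mul_assoc]

theorem txn_top : TxnStmt := by
  classical
  intro F V E A _ _ _ _ _ _ _ _ ℓ _ φ NN α hC hM
  have hfin : FiniteDimensional F A := hM.fin
  obtain ⟨n, n', c, hU⟩ := unn F V E A ℓ φ NN α hC hM
  have hnt : Nontrivial A := by
    by_contra h
    rw [not_nontrivial_iff_subsingleton] at h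
    apply hM.one
    rw [Subsingleton.elim (1 : A) 0]
    exact Submodule.zero_mem _
  obtain ⟨z, hz⟩ := H81.coc F V E A φ α n n' c hU
  have hcz : c = fun e f => (z.c e f : F) := by
    funext e f
    exact (hz e f).symm
  subst hcz
  obtain ⟨mu, hmu⟩ := hM.frm
  obtain ⟨S, hT, hα, hn⟩ := H6.tgt F V E A φ α n n' _ hU
  obtain ⟨c', hc⟩ := cotn B5a.H46.fvt F V E A ℓ φ NN α n n' _ mu S hC hU hmu.sym hmu.nz hT hα hn
  obtain ⟨hES, hEl, hEr, hEsym, hEmu, q, hq, hqq, hql, hqr, hqS⟩ :=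
    H6.prj F A (V × E) S (gg α n) (gg' α n') mu c' hT hmu.sym hc
  obtain ⟨hli, hEx⟩ := retn B5a.H46.fvt H6.prj F V E A ℓ φ NN α n n' _ mu S c' hC hU hmu hT
    hα hn hc
  obtain ⟨Ω, _, _, b, d, hFq⟩ := qwn Pool.Agent.PFC.H10.psx Pool.Agent.PFC.H41.psm F V E A ℓ φ NN
    α n n' _ q hC hU hM.ps hM.spn
    hqq (fun u x => hql _ (hα u) x) (fun u x => hqr _ (hα u) x)
    (fun e u => hqS _ (S.mul_mem (hn e) (hα u)))
  have hcard : (Nat.card E : F) ≠ 0 := by
    intro h
    exact hC.cop ((CharP.cast_eq_zero_iff F ℓ _).1 h)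
  obtain ⟨al, hal, halB⟩ := altn H33.omt B5a.H77.trs F V E A Ω φ NN α mu q b d hC.top hmu.sym
    hmu.nd hFq
  have hAL := H65.ave F V E A φ α n n' _ q al hU hcard (fun e x => hqr _ (hn e) x) hal
  obtain ⟨m, b0, b0', hDu, -⟩ := B5a.H41.fdb F A mu hmu.sym hmu.nd
  generalize hal' : ((Nat.card E : F)⁻¹ • al : A →ₗ[F] A) = al' at hAL
  obtain ⟨hc1, hc2, hCs⟩ := H6.cat H6.prj F A (V × E) S (gg α n) (gg' α n') mu c' al' m b0 b0' hT
    hmu.sym hmu.nd hc (fun x => by rw [hAL x, hq]) hDu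
  have hB' : ∀ ζ : A, (∀ u, ζ * α u = α u * ζ) →
      ∑ k, al' (b0 k) * ζ * b0' k ∈ BK (cj F α) ⊤ := by
    intro ζ hζ
    have h1 : ∑ k, al' (b0 k) * ζ * b0' k =
        (Nat.card E : F)⁻¹ • ∑ k, al (b0 k) * ζ * b0' k := by
      rw [Finset.smul_sum]
      apply Finset.sum_congr rfl
      intro k _
      rw [← hal', LinearMap.smul_apply, smul_mul_assoc, smul_mul_assoc]
    rw [h1]
    exact Submodule.smul_mem _ _ (halB m b0 b0' hDu ζ hζ)
  obtain ⟨⟨ρ, hρ, hρ1, hρC⟩, hun⟩ := H33.spt H81.unl F V A (V × E) S (gg α n) (gg' α n') mu c' al'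
    m b0 b0' α hα hc (hES 1) hM.loc hM.one hB' hCs
  have hr : ∀ x, (LinearMap.id - q : A →ₗ[F] A) x = Ev F (gg α n) (gg' α n') mu x * c' := by
    intro x
    rw [LinearMap.sub_apply, LinearMap.id_apply, hq]
    abel
  obtain ⟨j, pr, hjv, hjn, hjni, hjS, hjinj, hprj, hprl, hprr, hjpr⟩ :=
    H32.cpj F V E A φ α n n' z (mu.comp (LinearMap.mulRight F c')) S (LinearMap.id - q) hU hT hli
      (fun x => by
        rw [hr, hEx]
        rfl)
      (fun s hs => by
        rw [LinearMap.sub_apply, LinearMap.id_apply, hqS s hs, sub_zero])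
      (fun s hs x => by
        rw [LinearMap.sub_apply, LinearMap.id_apply, hql s hs, LinearMap.sub_apply,
          LinearMap.id_apply, mul_sub])
      (fun s hs x => by
        rw [LinearMap.sub_apply, LinearMap.id_apply, hqr s hs, LinearMap.sub_apply,
          LinearMap.id_apply, sub_mul])
  have hjE : ∀ x, j (pr x) = Ev F (gg α n) (gg' α n') mu x * c' := fun x => by
    rw [hjpr, hr]
  obtain ⟨sep⟩ := H81.cvs F (CP (D0 φ z)) A (Option (Fin m)) S j
    (fun k : Option (Fin m) => k.elim c' (fun k => al' (b0 k)))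
    (fun k : Option (Fin m) => k.elim 1 b0' * ρ) hjS hρ1 hρC
  obtain ⟨sepv⟩ := sepV φ z j hcard sep
  have hs1 : ∀ s ∈ S, Ev F (gg α n) (gg' α n') mu 1 * s * c' = s := by
    intro s hs
    rw [mul_assoc, ← hc.com s hs, ← mul_assoc, hc.rin, one_mul]
  have hbi : ∀ (w : V × V) (a : A),
      bi F α w a = j (vv φ z w.1) * a * j (vv φ z w.2⁻¹) := by
    intro w a
    rw [hjv, hjv]
    show α w.1 * (a * α w.2⁻¹) = _
    rw [← mul_assoc]
  refine ⟨z,
    { j := j
      pr := pr
      pr_j := hprj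
      pr_l := hprl
      pr_r := hprr
      fin := hfin
      mu := mu
      mus := hmu.sym
      mun := hmu.nd
      orth := fun x => by rw [hjE, hEmu]
      K := Option (Fin m)
      fK := inferInstance
      sep := sep
      sepV := sepv
      N := Option (Fin m)
      fN := inferInstance
      x := fun k => k.elim c' (fun k => al' (b0 k))
      y := fun k => Ev F (gg α n) (gg' α n') mu 1 * k.elim 1 b0'
      e1 := ?_
      e2 := ?_
      unt := ?_
      Om := Ω
      fOm := inferInstance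
      aOm := inferInstance
      b := b
      d := d
      b_eq := ?_
      d_eq := ?_
      sum := ?_
      st := hFq.st }, hjv⟩
  · intro a
    have h1 : ∀ k : Option (Fin m), k.elim c' (fun k => al' (b0 k)) *
        j (pr (Ev F (gg α n) (gg' α n') mu 1 * k.elim 1 b0' * a)) =
        k.elim c' (fun k => al' (b0 k)) * Ev F (gg α n) (gg' α n') mu (k.elim 1 b0' * a) := by
      intro k
      rw [hjE, mul_assoc (Ev F (gg α n) (gg' α n') mu 1), hEl _ (hES 1), hs1 _ (hES _)]
    rw [Finset.sum_congr rfl (fun k _ => h1 k)]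
    exact hc1 a
  · intro a
    have h1 : ∀ k : Option (Fin m), j (pr (a * k.elim c' (fun k => al' (b0 k)))) *
        (Ev F (gg α n) (gg' α n') mu 1 * k.elim 1 b0') =
        Ev F (gg α n) (gg' α n') mu (a * k.elim c' (fun k => al' (b0 k))) *
          k.elim 1 b0' := by
      intro k
      rw [hjE, ← mul_assoc, mul_assoc _ c', hc.lin, mul_one]
    rw [Finset.sum_congr rfl (fun k _ => h1 k)]
    exact hc2 a
  · intro w hw hwu
    obtain ⟨⟨w, w', h1, h2⟩, rfl⟩ := hwu
    have h3 := hun (j w) (j w') (fun s hs => by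
      obtain ⟨γ, rfl⟩ := (hjS s).1 hs
      rw [← map_mul, ← map_mul]
      exact congrArg j (hw γ)) (by rw [← map_mul, h1, map_one])
      (by rw [← map_mul, h2, map_one])
    exact h3
  · intro w ω
    rw [hFq.eb, hbi]
  · intro w ω a
    rw [← hbi]
    exact hFq.ed w ω a
  · intro a
    rw [hFq.sum, hjpr, LinearMap.sub_apply, LinearMap.id_apply]
    abel

end Pool.Agent.PFE.H79
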