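import Pool.Agent.PFE.DefsN
import Pool.Agent.Helper31_PFC.FUL
import Pool.Agent.Helper15_PFC.BRK

/-!
# Squad PFE: an idempotent which is `1` modulo the Brauer kernel of `V` is full (helper79)

`FulStmt` (`PFC/StmtsB5c.lean`, helper31) with the hypotheses which its proof uses: `V` is an
`ℓ`-group, `ℓ` does not divide the order of `E`, `E` acts faithfully on `V`.
-/

open scoped BigOperators TensorProduct

noncomputable section

namespace Pool.Agent.PFE

open Pool.Agent.PFC Pool.Agent.PFC.B5c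

/-- An idempotent of the centraliser of `V` which is `1` modulo the Brauer kernel is full. -/
def FunStmt : Prop :=
  ∀ (ℓ : ℕ) [Fact ℓ.Prime] (F V E A : Type) [Field F] [CharP F ℓ] [CommGroup V] [Fintype V]
    [Group E] [Fintype E] [Ring A] [Algebra F A] [FiniteDimensional F A] (φ : E →* MulAut V)
    (α : V →* A) (lam : A →ₗ[F] F) (j : A), IsPGroup ℓ V → ¬ ℓ ∣ Nat.card E →
    (∀ e : E, (∀ u, φ e u = u) → e = 1) → Frm F α lam →
    PS (fun K => ∃ (e : E) (R : Subgroup V), K = tw (φ e).toMonoidHom R) (bi F α) →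
    BQ (bd F α) (IA.gr F V) ⊤ →
    (∀ e : E, ∃ y y' : A, y * y' = 1 ∧ y' * y = 1 ∧ ∀ u, y * α u = α (φ e u) * y) →
    (∀ z : A, (∀ a, z * a = a * z) → IsUnit z ∨ IsNilpotent z) →
    j ∈ Fx (cj F α) ⊤ → j * j = j → 1 - j ∈ BK (cj F α) ⊤ →
    (1 : A) ∈ Submodule.span F {x | ∃ a b : A, x = a * j * b}

namespace H79

open Pool.Agent.PFC.B5c.H31

theorem Ft_unif {V E Ω : Type} [CommGroup V] [Group E] [MulAction (V × V) Ω]
    {φ : E →* MulAut V} (hfa : ∀ e : E, (∀ u, φ e u = u) → e = 1)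
    (hst : ∀ ω : Ω, ∃ (e : E) (R : Subgroup V),
      MulAction.stabilizer (V × V) ω = tw (φ e).toMonoidHom R) (e e' : E) (ω : Ω)
    (h : Ft φ e ω) (h' : Ft φ e' ω) : e = e' := by
  obtain ⟨e1, R, hR⟩ := hst ω
  have h1 : ∀ u, φ e1 u = φ e u := by
    intro u
    have h2 : ((φ e u, u) : V × V) ∈ MulAction.stabilizer (V × V) ω := h u
    rw [hR, mem_tw] at h2
    exact h2.2
  have h1' : ∀ u, φ e1 u = φ e' u := by
    intro u
    have h2 : ((φ e' u, u) : V × V) ∈ MulAction.stabilizer (V × V) ω := h' u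
    rw [hR, mem_tw] at h2
    exact h2.2
  have h3 : ∀ u, φ (e'⁻¹ * e) u = u := by
    intro u
    rw [map_mul, MulAut.mul_apply, ← h1, h1', ← MulAut.mul_apply, ← map_mul, inv_mul_cancel,
      map_one, MulAut.one_apply]
  have h4 := hfa _ h3
  rw [inv_mul_eq_one] at h4
  exact h4.symm

/-- The statement without the bundles. -/
theorem fun_main {F V E A : Type} [Field F] [CommGroup V] [Group E] [Ring A] [Algebra F A]
    [Fintype V] [Fintype E] [FiniteDimensional F A] {φ : E →* MulAut V} {α : V →* A}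
    {lam : A →ₗ[F] F} {chi : A →ₗ[F] F} {ℓ : ℕ} [Fact ℓ.Prime] [CharP F ℓ]
    (hV : IsPGroup ℓ V) (hcop : ¬ ℓ ∣ Nat.card E)
    (hfa : ∀ e : E, (∀ u, φ e u = u) → e = 1) (hlam : Frm F α lam)
    (hps : PS (fun K => ∃ (e : E) (R : Subgroup V), K = tw (φ e).toMonoidHom R) (bi F α))
    (hc : Ch α chi)
    (huni : ∀ e : E, ∃ y y' : A, y * y' = 1 ∧ y' * y = 1 ∧ ∀ u, y * α u = α (φ e u) * y)
    (hcen : ∀ z : A, (∀ a, z * a = a * z) → IsUnit z ∨ IsNilpotent z) (j : A)
    (hj : j ∈ Fx (cj F α) ⊤) (hj1 : 1 - j ∈ BK (cj F α) ⊤) :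
    (1 : A) ∈ Submodule.span F {x | ∃ a b : A, x = a * j * b} := by
  classical
  obtain ⟨Ω, _, _, b, c, hfr, hst⟩ := hps
  obtain ⟨s, hcs, hf⟩ := ex_fr hlam.sym hlam.nd hfr
  have hfree := free_of hst
  obtain ⟨T, hT, hT2⟩ := Tm_split hf (one_C α)
  have hchi1 : chi (Tm V b s 1) = ∑ z ∈ T, chi (fw b s 1 z) := by
    have h1 := hc.bk _ hT2
    rwa [map_sub, map_sum, sub_eq_zero] at h1
  have hcard : chi (Tm V b s 1) * lam (∑ v, α v) = (Fintype.card E : F) := by
    have h1 : ∑ z ∈ T, chi (fw b s 1 z) =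
        ∑ e : E, ∑ z ∈ T.filter (fun z => Ft φ e (rp z)), chi (fw b s 1 z) := by
      simp only [Finset.sum_filter]
      rw [Finset.sum_comm]
      refine Finset.sum_congr rfl fun z hz => ?_
      obtain ⟨e, he⟩ := ex_Ft hst z ((hT z).1 hz)
      rw [Finset.sum_eq_single e, if_pos he]
      · intro e' _ hne
        rw [if_neg]
        intro he'
        exact hne (Ft_unif hfa hst e' e _ he' he)
      · intro h
        exact absurd (Finset.mem_univ e) h
    rw [hchi1, h1, Finset.sum_mul]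
    have h2 : ∀ e : E, (∑ z ∈ T.filter (fun z => Ft φ e (rp z)), chi (fw b s 1 z)) *
        lam (∑ v, α v) = 1 := by
      intro e
      obtain ⟨y, y', hy1, hy2, hy3⟩ := huni e
      refine claim hV hf hfr hcs hc hst e y y' hy1 hy2 hy3 _ fun z => ?_
      rw [Finset.mem_filter, hT]
      exact ⟨fun h => h.2, fun h => ⟨fun u => Ft_fix e z h u, h⟩⟩
    rw [Finset.sum_congr rfl fun e _ => h2 e, Finset.sum_const, Finset.card_univ, nsmul_eq_mul,
      mul_one]
  have hne : (Fintype.card E : F) ≠ 0 := by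
    intro h
    rw [CharP.cast_eq_zero_iff F ℓ, ← Nat.card_eq_fintype_card] at h
    exact hcop h
  have hadd : Tm V b s 1 = Tm V b s j + Tm V b s (1 - j) := by
    rw [Tm, Tm, Tm, ← Finset.sum_add_distrib]
    refine Finset.sum_congr rfl fun z _ => ?_
    rw [← add_mul, ← mul_add, add_sub_cancel]
  have hchij : chi (Tm V b s j) = chi (Tm V b s 1) := by
    rw [hadd, map_add, hc.bk _ (Tm_BK hf hst hj1), add_zero]
  have hzc : ∀ a, Tm V b s j * a = a * Tm V b s j := fun a => (Tm_central hf hfree hj a).symm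
  have hz0 : chi (Tm V b s j) ≠ 0 := by
    intro h
    rw [hchij] at h
    rw [h, zero_mul] at hcard
    exact hne hcard.symm
  rcases hcen _ hzc with hu | hn
  · obtain ⟨z', hz'⟩ := hu.exists_left_inv
    have h1 : ∑ z : Zq V Ω, z' * b (rp z) * j * s (rp z) = 1 := by
      rw [← hz', Tm, Finset.mul_sum]
      simp only [mul_assoc]
    rw [← h1]
    exact Submodule.sum_mem _ fun z _ => Submodule.subset_span ⟨_, _, rfl⟩
  · exfalso
    obtain ⟨N, hN⟩ := hn
    have hCz : Tm V b s j ∈ Fx (cj F α) ⊤ := by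
      rw [mem_C]
      intro u
      exact (hzc _).symm
    have hpow : ∀ k : ℕ, Tm V b s j ^ k ∈ Fx (cj F α) ⊤ ∧
        chi (Tm V b s j ^ k) = chi (Tm V b s j) ^ k := by
      intro k
      induction k with
      | zero =>
        rw [pow_zero, pow_zero]
        exact ⟨one_C α, hc.one⟩
      | succ k ih =>
        rw [pow_succ, pow_succ, hc.mul _ ih.1 _ hCz, ih.2]
        exact ⟨C_mul α ih.1 hCz, rfl⟩
    have h1 := (hpow N).2
    rw [hN, map_zero] at h1
    exact pow_ne_zero N hz0 h1.symm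

/-- An idempotent which is `1` modulo the Brauer kernel of `V` is full. -/
theorem funr : FunStmt := by
  classical
  intro ℓ _ F V E A _ _ _ _ _ _ _ _ _ φ α lam j hV hcop hfa hlam hps hbq huni hcen hj _ hj1
  obtain ⟨β, sg, h⟩ := hbq
  let β' : A →ₗ[F] MonoidAlgebra F V := β
  have hβ : ∀ m ∈ Fx (cj F α) ⊤, β' m = 0 ↔ m ∈ BK (cj F α) ⊤ :=
    H15.brk ℓ F V A (MonoidAlgebra F V) (cj F α) (cj F (MonoidAlgebra.of F V)) ⊤ β' sg hV
      h.toBrS
  have hcov : ∀ v, β' (α v) = MonoidAlgebra.of F V v := h.cov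
  have hmul : ∀ x ∈ Fx (cj F α) ⊤, ∀ y ∈ Fx (cj F α) ⊤, β' (x * y) = β' x * β' y := h.mul
  let chi : A →ₗ[F] F := (B5a.au F V).toLinearMap.comp β'
  have hchi : ∀ x, chi x = B5a.au F V (β' x) := fun x => rfl
  have hc : Ch α chi := by
    refine ⟨?_, ?_, ?_, ?_⟩
    · intro m hm
      rw [hchi, (hβ m (BK_le_Fx _ _ hm)).2 hm, map_zero]
    · intro x hx y hy
      rw [hchi, hmul x hx y hy, map_mul]
      rfl
    · intro v
      rw [hchi, hcov, B5a.au, MonoidAlgebra.lift_of]
      rfl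
    · intro x hx
      refine ⟨fun v => (β' x).coeff v, ?_⟩
      rw [← hβ]
      · rw [map_sub, map_sum, sub_eq_zero]
        ext w
        rw [MonoidAlgebra.coeff_sum, Finsupp.finsetSum_apply]
        simp only [map_smul, hcov, MonoidAlgebra.of_apply, MonoidAlgebra.coeff_smul,
          MonoidAlgebra.coeff_single, Finsupp.smul_apply, Finsupp.single_apply, smul_eq_mul,
          mul_ite, mul_one, mul_zero, Finset.sum_ite_eq', Finset.mem_univ, if_true]
      · refine Submodule.sub_mem _ hx (Submodule.sum_mem _ fun v _ => ?_)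
        exact Submodule.smul_mem _ _ (al_C α v)
  exact fun_main hV hcop hfa hlam hps hc huni hcen j hj hj1



end H79

end Pool.Agent.PFE
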