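import Pool.Agent.Helper79_PFE.Lon
import Pool.Agent.PFC.StmtsB5d
import Pool.Agent.Helper63_PFC.TRB
import Pool.Agent.PFC.B5c.Itw_helper65
import Pool.Agent.PFC.B4.PSR_49

/-!
# Squad PFE: the family of the local matrix algebras for a family `NN` of subgroups (helper79)
-/

open scoped BigOperators TensorProduct

noncomputable section

namespace Pool.Agent.PFE

open Pool.Agent.PFC
open Pool.Agent.PFC.B5c (bd sg)

/-- The family of the matrix algebras `S_Q`: `X(Q) = S_Q ⊗ F V` for `Q` in `NN`. -/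
structure FamN {F V E : Type} [Field F] [CommGroup V] [Group E] [Finite V] (X : IA F V)
    (φ : E →* MulAut V) (NN : Subgroup V → Prop) (S : Subgroup V → IA F V) : Prop where
  mx : ∀ Q, NN Q → Mx (S Q)
  cp : ∀ Q, NN Q → CP (S Q)
  bq : ∀ Q, NN Q → BQ X ((S Q).tens (IA.gr F V)) Q
  tw : ∀ Q, NN Q → ∀ e, IsoT (φ e) (S Q) (S (Q.map (φ e).toMonoidHom))

/-- The family exists. -/
def FanStmt : Prop :=
  ∀ (F V E A : Type) [Field F] [CommGroup V] [Fintype V] [Group E] [Ring A] [Algebra F A]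
    [FiniteDimensional F A] (ℓ : ℕ) [CharP F ℓ] (φ : E →* MulAut V) (NN : Subgroup V → Prop)
    (α : V →* A), Ctn ℓ φ NN → PInN F φ NN α → ∃ S : Subgroup V → IA F V, FamN (bd F α) φ NN S

/-- Comparison of the local matrix algebras. -/
def CmnStmt : Prop :=
  ∀ (ℓ : ℕ) [Fact ℓ.Prime] (F V E : Type) [Field F] [CharP F ℓ] [CommGroup V] [Finite V]
    [Group E] (X : IA F V) (φ : E →* MulAut V) (NN : Subgroup V → Prop)
    (S : Subgroup V → IA F V), IsPGroup ℓ V → NN ⊤ →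
    (∀ Q T : Subgroup V, NN Q → Q ≤ T → NN T) → CP X → BQ X (IA.gr F V) ⊤ → FamN X φ NN S →
    (∀ Q, NN Q → ∀ R : Subgroup V, BQ (S Q) (S (Q ⊔ R)) R) ∧ Iso (S ⊤) (IA.one F V)

/-- Gluing over a family of subgroups which is closed upwards. -/
def QgnStmt : Prop :=
  ∀ (ℓ : ℕ) [Fact ℓ.Prime] (F V : Type) [Field F] [CharP F ℓ] [CommGroup V] [Finite V]
    (NN : Subgroup V → Prop) (Sg : Set (MulAut V)) (S : Subgroup V → IA F V), IsPGroup ℓ V →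
    NN ⊤ → (∀ Q T : Subgroup V, NN Q → Q ≤ T → NN T) →
    (∀ σ ∈ Sg, ∀ Q : Subgroup V, NN (Q.map σ.toMonoidHom) ↔ NN Q) →
    (∀ Q, NN Q → Mx (S Q) ∧ CP (S Q)) →
    (∀ Q, NN Q → ∀ R : Subgroup V, BQ (S Q) (S (Q ⊔ R)) R) → Iso (S ⊤) (IA.one F V) →
    (∀ σ ∈ Sg, ∀ Q, NN Q → IsoT σ (S Q) (S (Q.map σ.toMonoidHom))) →
    ∃ N : IA F V, Mx N ∧ CP N ∧ (∀ σ ∈ Sg, Rz N σ) ∧ BQ N (IA.one F V) ⊤ ∧
      (∀ R : Subgroup V, ∃ N' : IA F V, Mx N' ∧ BQ N N' R) ∧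
      ∀ R : Subgroup V, NN R → ∃ N' : IA F V, BQ N N' R ∧ Ret (N'.tens (S R)) ∧
        BQ (N'.tens (S R)) (IA.one F V) ⊤

namespace H79

theorem fan : FanStmt := by
  intro F V E A _ _ _ _ _ _ _ ℓ _ φ NN α hctn hin
  classical
  have hp : Fact ℓ.Prime := ⟨hctn.pr⟩
  choose n π hL using hin.lcq
  have hcp : CP (bd F α) := by
    have h1 := H49b.psr F (V × V) V A (bi F α) ((MonoidHom.id V).prod (MonoidHom.id V)) _ hin.ps
    obtain ⟨Ω, i1, i2, b, c, hfr, hst⟩ := h1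
    exact ⟨Ω, i1, i2, b, c, hfr, fun _ => trivial⟩
  obtain ⟨S, hS⟩ : ∃ S : Subgroup V → IA F V, ∀ (Q : Subgroup V) (h : NN Q),
      S Q = B5c.mx (sg F α Q (π Q h)) := by
    refine ⟨fun Q => if h : NN Q then B5c.mx (sg F α Q (π Q h)) else IA.one F V, fun Q h => ?_⟩
    exact dif_pos h
  refine ⟨S, ?_, ?_, ?_, ?_⟩
  · intro Q h
    rw [hS Q h]
    exact ⟨n Q h, (hL Q h).pos, ⟨AlgEquiv.refl⟩⟩
  · intro Q h
    rw [hS Q h]
    exact (lon F V E A ℓ φ NN α Q (n Q h) (π Q h) hctn hin h (hL Q h)).1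
  · intro Q h
    rw [hS Q h]
    obtain ⟨-, q, hq1, hq2, hq3⟩ := lon F V E A ℓ φ NN α Q (n Q h) (π Q h) hctn hin h (hL Q h)
    exact B5c.H63.trb ℓ F V (bd F α) ((B5c.mx (sg F α Q (π Q h))).tens (IA.gr F V)) Q q hctn.pg hcp
      hq1 hq2 hq3
  · intro Q h e
    have h' : NN (Q.map (φ e).toMonoidHom) := hctn.st e Q h
    rw [hS Q h, hS _ h']
    obtain ⟨y, y', hy, hy', hyu⟩ := hin.uni e
    exact B5c.H65.itw F V A α (φ e) y y' Q (n Q h) (n _ h') (π Q h) (π _ h') hy hy' hyu (hL Q h)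
      (hL _ h')

theorem cmn (qtr : QtrStmt) (qal : QalStmt) (qte : QteStmt) (qop : QopStmt) (qun : QunStmt)
    (qca : QcaStmt) (qis : QisStmt) (qmx : QmxStmt) : CmnStmt := by
  intro ℓ _ F V E _ _ _ _ _ X φ NN S hV htop hup hX hXV hS
  obtain ⟨hrefl, hsymm, htrans, hBQ, -, -, -, -, -, -, -, hone, -⟩ := qis F V
  obtain ⟨-, -, hgr⟩ := qop F V
  obtain ⟨-, -, hmx1⟩ := qmx F V
  have huni : ∀ (Z Y Y' : IA F V) (Q : Subgroup V), BQ Z Y Q → BQ Z Y' Q → Iso Y Y' := by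
    rintro Z Y Y' Q ⟨β, s, h⟩ ⟨β', s', h'⟩
    obtain ⟨e, he, -⟩ := qun ℓ F V Z Y Y' Q β s β' s' hV h h'
    exact ⟨e, he⟩
  refine ⟨fun Q hQ R => ?_, ?_⟩
  · have hQR : NN (Q ⊔ R) := hup Q _ hQ le_sup_left
    have h1 : BQ ((S Q).tens (IA.gr F V)) ((S (Q ⊔ R)).tens (IA.gr F V)) R :=
      qtr ℓ F V X _ _ Q R hV hX (hS.bq Q hQ) (hS.bq (Q ⊔ R) hQR)
    obtain ⟨T, hT⟩ := qal ℓ F V (S Q) hV (hS.cp Q hQ) R
    have h2 : BQ ((S Q).tens (IA.gr F V)) (T.tens (IA.gr F V)) R := by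
      obtain ⟨β, s, h⟩ := hT
      obtain ⟨β', s', h'⟩ := hgr R
      exact ⟨_, _, qte ℓ F V _ _ _ _ R β s β' s' hV h h'⟩
    have h3 : Iso T (S (Q ⊔ R)) :=
      qca ℓ F V T (S (Q ⊔ R)) hV (hS.mx (Q ⊔ R) hQR) (huni _ _ _ R h2 h1)
    exact hBQ (S Q) (S Q) T (S (Q ⊔ R)) R (hrefl _) h3 hT
  · have h1 : Iso ((S ⊤).tens (IA.gr F V)) (IA.gr F V) := huni X _ _ ⊤ (hS.bq ⊤ htop) hXV
    exact qca ℓ F V (S ⊤) (IA.one F V) hV hmx1 (htrans _ _ _ h1 (hsymm _ _ (hone (IA.gr F V))))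

end H79

end Pool.Agent.PFE
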