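import Pool.Agent.PFE.DefsN
import Pool.Agent.PFC.StmtsB5a
import Pool.Agent.PFC.B5.FVTa
import Pool.Agent.Helper24_PFC.OMZ
import Pool.Agent.Helper77_PFC.TRSa
import Pool.Agent.Helper41_PFC.FDB
import Pool.Agent.PFC.B5.CUG_49
import Pool.Agent.Helper53_PFC.CASa
import Pool.Agent.Helper48_PFC.UNS
import Pool.Agent.Helper92_PFC.QFR
import Pool.Agent.Helper94_PFC.ALV
import Pool.Agent.Helper39_PFC.Qmt
import Pool.Agent.Helper75_PFC.Muv
import Pool.Agent.Helper15_PFC.KWAa
import Pool.Agent.Helper24_PFC.KWB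
import Pool.Agent.Helper72_PFC.LFTa
import Pool.Agent.Helper13_PFC.SUV
import Pool.Agent.Helper31_PFC.INJa
import Pool.Agent.Helper17_PFC.LOC
import Pool.Agent.Helper72_PFC.CPSa
import Pool.Agent.Helper19_PFC.QEXa
import Pool.Agent.Helper70_PFC.QFCa
import Pool.Agent.Helper92_PFC.QFM
import Pool.Agent.Helper83_PFC.QTPa
import Pool.Agent.Helper59_PFC.LOQa

/-!
# Squad PFE: the local structure of `A(Q)` for a family `NN` (helper79)
-/

open scoped BigOperators TensorProduct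

noncomputable section

namespace Pool.Agent.PFE

open Pool.Agent.PFC Pool.Agent.PFC.B5a

/-- `LoqOut` (`PFC/StmtsB5c.lean`) for a family `NN`. -/
def LonStmt : Prop :=
  ∀ (F V E A : Type) [Field F] [CommGroup V] [Fintype V] [Group E] [Ring A] [Algebra F A]
    (ℓ : ℕ) [CharP F ℓ] (φ : E →* MulAut V) (NN : Subgroup V → Prop) (α : V →* A)
    (Q : Subgroup V) (n : ℕ) (π : Cz F α Q →ₐ[F] Matrix (Fin n) (Fin n) F),
    Ctn ℓ φ NN → PInN F φ NN α → NN Q → Lcq F α Q n π →
    PS (fun _ => True) (cj F ((π : Cz F α Q →* Matrix (Fin n) (Fin n) F).comp (zin F α Q))) ∧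
    ∃ q : Cz F α Q →ₐ[F] Matrix (Fin n) (Fin n) F ⊗[F] MonoidAlgebra F V,
      Function.Surjective q ∧ (∀ a : Cz F α Q, q a = 0 ↔ (a : A) ∈ BK (cj F α) Q) ∧
      ∀ u, q (zin F α Q u) = π (zin F α Q u) ⊗ₜ[F] MonoidAlgebra.of F V u

namespace H79

/-- The stabilisers for `A(Q)`, `Q` in the family. -/
theorem qpn (ℓ : ℕ) [Fact ℓ.Prime] (F V E A B : Type) [Field F]
    [CharP F ℓ] [CommGroup V] [Fintype V] [Group E] [Ring A] [Algebra F A] [Ring B] [Algebra F B]
    (φ : E →* MulAut V) (NN : Subgroup V → Prop) (α : V →* A) (Q : Subgroup V)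
    (q : Cz F α Q →ₐ[F] B) (hctx : Ctn ℓ φ NN) (hqa : QA F α Q q) (hQ : NN Q)
    (hps : PS (fun K => ∃ (e : E) (R : Subgroup V), K = tw (φ e).toMonoidHom R) (bi F α)) :
    PS (fun K => ∃ R : Subgroup V, K = tw (MonoidHom.id V) R) (bi F (be F α Q q)) := by
  obtain ⟨Ω, _, _, b, c, hfr, hst⟩ := hps
  obtain ⟨Ω', i1, i2, j, b', c', hfr', hj, hj2, hj3, -, -⟩ :=
    H70.qfc H49d.bki ℓ F V A B α Q q Ω b c hctx.pg hqa hfr
  refine ⟨Ω', i1, i2, b', c', hfr', fun ω' => ?_⟩
  obtain ⟨e, R, hR⟩ := hst (j ω')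
  have hs : MulAction.stabilizer (V × V) ω' = MulAction.stabilizer (V × V) (j ω') := by
    ext w
    rw [MulAction.mem_stabilizer_iff, MulAction.mem_stabilizer_iff, ← hj3]
    exact ⟨fun h => by rw [h], fun h => hj h⟩
  have he : e = 1 := by
    refine hctx.cf Q hQ e fun u hu => ?_
    have h1 : ((u, u) : V × V) ∈ MulAction.stabilizer (V × V) (j ω') := by
      rw [MulAction.mem_stabilizer_iff]
      exact (hj2 (j ω')).1 ⟨ω', rfl⟩ u hu
    rw [hR] at h1
    obtain ⟨r, -, hr2⟩ := h1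
    have h2 : φ e r = u := congrArg Prod.fst hr2
    have h3 : r = u := congrArg Prod.snd hr2
    rw [h3] at h2
    exact h2
  refine ⟨R, ?_⟩
  rw [hs, hR, he, map_one]
  rfl

/-- The local structure of `A(Q)`, `Q` in the family. -/
theorem lon : LonStmt := by
  intro F V E A _ _ _ _ _ _ ℓ _ φ NN α Q n π hctx hpin hQ hl
  have : Fact ℓ.Prime := ⟨hctx.pr⟩
  have := hpin.fin
  obtain ⟨B, _, _, q, hq⟩ := H19.qexa H49d.bki F V A α Q
  obtain ⟨π', h1, h2, h3, h4⟩ := qmt F V A B α Q q n π hq hl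
  obtain ⟨lam, hlam⟩ := hpin.frm
  obtain ⟨htp, hloc⟩ :=
    H83.qtpa H49d.bki H70.qfc ℓ F V A B α Q q _ hctx.pg hq hpin.ps hpin.top hpin.loc
  have hps := qpn ℓ F V E A B φ NN α Q q hctx hq hQ hpin.ps
  have hLB : LB F (be F α Q q) n π' :=
    { fin := h3
      frm := H92.qfm H49d.bki ℓ F V A B α Q q _ lam hctx.pg hq hpin.ps hlam
      loc := hloc
      ps := hps
      top := htp
      pos := hl.pos
      sur := h2
      nil := h4
      cop := hl.cop }
  have : Nontrivial V := by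
    obtain ⟨u, hu⟩ := hctx.nt
    exact ⟨⟨u, 1, hu⟩⟩
  obtain ⟨f, hf, hbij⟩ :=
    (H17.loc H46.fvt H24.omz H77.trs H49d.bki H41.fdb H49d.cug H53.cas
      H48.uns H92.qfr H94.alv H75.muv H49d.nil H15.kwaa H24.kwb spv
      H72.lft H13.suv H31.inj) ℓ F V B (be F α Q q) n π' hctx.pg hLB
  have hcomp : (π' : B →* Matrix (Fin n) (Fin n) F).comp (be F α Q q) =
      (π : Cz F α Q →* Matrix (Fin n) (Fin n) F).comp (zin F α Q) := by
    apply MonoidHom.ext
    intro u
    exact h1 (zin F α Q u)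
  constructor
  · rw [← hcomp]
    exact H72.cps F V B (be F α Q q) n π' f _ hf hbij hps
  · refine ⟨((H59.mte F V n : Matrix (Fin n) (Fin n) (MonoidAlgebra F V) →ₐ[F]
      Matrix (Fin n) (Fin n) F ⊗[F] MonoidAlgebra F V).comp f).comp q, ?_, ?_, ?_⟩
    · intro y
      obtain ⟨x, hx⟩ := (H59.mte F V n).surjective y
      obtain ⟨b, hb⟩ := hbij.2 x
      obtain ⟨a, ha⟩ := hq.sur b
      refine ⟨a, ?_⟩
      change H59.mte F V n (f (q a)) = y
      rw [ha, hb, hx]
    · intro a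
      rw [← hq.ker a]
      change H59.mte F V n (f (q a)) = 0 ↔ q a = 0
      constructor
      · intro h
        apply hbij.1
        rw [map_zero]
        apply (H59.mte F V n).injective
        rw [h, map_zero]
      · intro h
        rw [h, map_zero, map_zero]
    · intro u
      change H59.mte F V n (f (q (zin F α Q u))) = _
      rw [← (H59.mte F V n).apply_symm_apply (π (zin F α Q u) ⊗ₜ[F] MonoidAlgebra.of F V u),
        H59.mte_symm]
      have h5 : f (q (zin F α Q u)) =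
          Matrix.of fun i j => MonoidAlgebra.single u (π (zin F α Q u) i j) := by
        ext1 i j
        rw [Matrix.of_apply, ← h1]
        exact hf.grp u i j
      rw [h5]

end H79

end Pool.Agent.PFE
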