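import Pool.Agent.PFE.DefsN
import Pool.Agent.Helper59_PFD.CHS
import Pool.Agent.Helper79_PFD.RET
import Pool.Agent.Helper6_PFD.QWF
import Pool.Agent.Helper62_PFD.ALT

/-!
# PFE: the rows CHS, COT, RET, QWF, ALT of PFD/D6 for a family `NN`
(proofs of helper59, helper30, helper79, helper6, helper62)
-/

open scoped BigOperators

noncomputable section

namespace Pool.Agent.PFE.H79

open Pool.Agent.PFC Pool.Agent.PFD Pool.Agent.PFD.D6
open Pool.Agent.PFD.D6.H59 (sum_inv)
open Pool.Agent.PFD.D6.H79 (tra)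
open Pool.Agent.PFD.D6.H62 (d_apply b_apply yy yy_apply a_l)
open Pool.Agent.PFD.D6.H6 (BK_map exσ)
open Pool.Agent.PFC.B5a (FvtStmt TrsStmt BkiStmt FdbStmt Du)

theorem chn (F V E A : Type) [Field F] [CommGroup V] [Fintype V] [Group E]
    [Ring A] [Algebra F A] (ℓ : ℕ) [CharP F ℓ] (φ : E →* MulAut V) (NN : Subgroup V → Prop)
    (α : V →* A) (n n' : E → A) (c : E → E → F) (lam : A →ₗ[F] F) (hctf : Ctn ℓ φ NN)
    (hunt : Unt φ α n n' c) (hsym : ∀ a b, lam (a * b) = lam (b * a)) (e : E) (he : e ≠ 1) :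
    ∑ w, lam (α w * n' e) = 0 ∧ ∑ w, lam (α w * n e) = 0 := by
  have hinv : ∀ v : V, α v⁻¹ * α v = 1 := fun v => by
    rw [← map_mul, inv_mul_cancel, map_one]
  have hn' : ∀ v : V, n' e * α v = α (φ e⁻¹ v) * n' e := by
    intro v
    have h1 : φ e (φ e⁻¹ v) = v := by
      rw [← MulAut.mul_apply, ← map_mul, mul_inv_cancel, map_one, MulAut.one_apply]
    have h2 := hunt.tw e (φ e⁻¹ v)
    rw [h1] at h2
    calc n' e * α v = n' e * (α v * n e) * n' e := by
          rw [mul_assoc, mul_assoc, hunt.ri, mul_one]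
      _ = n' e * (n e * α (φ e⁻¹ v)) * n' e := by rw [h2]
      _ = α (φ e⁻¹ v) * n' e := by rw [← mul_assoc (n' e), hunt.li, one_mul]
  have key : ∀ (x : A) (e' : E), e' ≠ 1 → (∀ v, x * α v = α (φ e' v) * x) →
      ∑ w, lam (α w * x) = 0 := by
    intro x e' he' hx
    obtain ⟨u, hu⟩ : ∃ u, φ e' u ≠ u := by
      by_contra h
      exact he' (hctf.fa e' (fun u => by
        by_contra h2
        exact h ⟨u, h2⟩))
    apply sum_inv ℓ hctf.pr hctf.pg (fun w => lam (α w * x)) (u⁻¹ * φ e' u)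
    · intro h
      exact hu (inv_mul_eq_one.1 h).symm
    · intro w
      have h1 : α (w * (u⁻¹ * φ e' u)) * x = α u⁻¹ * (α w * x * α u) := by
        rw [mul_assoc (α w), hx, ← mul_assoc (α w), ← mul_assoc (α u⁻¹), ← map_mul, ← map_mul]
        congr 2
        rw [mul_left_comm]
      have h2 : α u * α u⁻¹ = 1 := by rw [← map_mul, mul_inv_cancel, map_one]
      rw [h1, hsym, mul_assoc (α w * x), h2, mul_one]
  constructor
  · exact key (n' e) e⁻¹ (inv_ne_one.2 he) hn'
  · exact key (n e) e he (hunt.tw e)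


theorem cotn (hFVT : FvtStmt) (F V E A : Type) [Field F] [CommGroup V]
    [Fintype V] [Group E] [Fintype E] [Ring A] [Algebra F A] [FiniteDimensional F A] (ℓ : ℕ)
    [CharP F ℓ] (φ : E →* MulAut V) (NN : Subgroup V → Prop) (α : V →* A) (n n' : E → A)
    (c : E → E → F) (lam : A →ₗ[F] F) (S : Subalgebra F A) (hctf : Ctn ℓ φ NN)
    (hunt : Unt φ α n n' c) (hsym : ∀ a b, lam (a * b) = lam (b * a))
    (hlam : lam (∑ u, α u) ≠ 0) (hTg : Tg F S (gg α n) (gg' α n')) (hαS : ∀ u, α u ∈ S)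
    (hnS : ∀ e, n e ∈ S) : ∃ c', Cg F S (gg α n) (gg' α n') lam c' := by
  classical
  have hℓ : Fact ℓ.Prime := ⟨hctf.pr⟩
  set c0 : A := Ev F (gg α n) (gg' α n') lam 1 with hc0
  have hc0s : c0 = ∑ p, lam (gg' α n' p) • gg α n p := by
    rw [hc0]
    unfold Ev
    refine Finset.sum_congr rfl ?_
    intro p _
    rw [mul_one]
  have hgS : ∀ p, gg α n p ∈ S := fun p => S.mul_mem (hαS _) (hnS _)
  have hc0S : c0 ∈ S := by
    rw [hc0s]
    exact S.sum_mem (fun p _ => S.smul_mem (hgS p) _)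
  have hcom : ∀ s ∈ S, s * c0 = c0 * s := by
    intro s hs
    have h1 := hTg.cs1 A ((LinearMap.lsmul F A) ∘ₗ lam) s hs
    have h2 := hTg.cs2 A ((LinearMap.lsmul F A) ∘ₗ lam) s hs
    simp only [LinearMap.comp_apply, LinearMap.lsmul_apply] at h1 h2
    rw [hc0s, Finset.mul_sum, Finset.sum_mul]
    have h3 : ∑ p, s * lam (gg' α n' p) • gg α n p =
        ∑ p, lam (gg' α n' p) • (s * gg α n p) := by
      refine Finset.sum_congr rfl ?_
      intro p _
      rw [mul_smul_comm]
    have h4 : ∑ p, lam (gg' α n' p) • gg α n p * s =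
        ∑ p, lam (gg' α n' p) • (gg α n p * s) := by
      refine Finset.sum_congr rfl ?_
      intro p _
      rw [smul_mul_assoc]
    rw [h3, h4, ← h1, ← h2]
    refine Finset.sum_congr rfl ?_
    intro p _
    rw [hsym]
  have hinj : ∀ b : A, c0 * b = 0 → b = 0 := by
    by_contra hcon
    push Not at hcon
    obtain ⟨b0, hb0, hb0'⟩ := hcon
    let ρ : V →* (A →ₗ[F] A) :=
      { toFun := fun w => LinearMap.mulLeft F (α w)
        map_one' := by
          ext x
          simp
        map_mul' := by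
          intro x y
          ext z
          simp }
    let N : Submodule F A := LinearMap.ker (LinearMap.mulLeft F c0)
    have hN : N ≠ ⊥ := by
      intro h
      have h1 : b0 ∈ N := hb0
      rw [h] at h1
      exact hb0' ((Submodule.mem_bot F).1 h1)
    obtain ⟨b, hbN, hb1, hb2⟩ := hFVT ℓ F V A ρ N hctf.pg (by
      intro h m hm
      have hm' : c0 * m = 0 := hm
      show c0 * (α h * m) = 0
      rw [← mul_assoc, ← hcom _ (hαS h), mul_assoc, hm', mul_zero]) hN
    have hfix : ∀ w, α w * b = b := fun w => hb2 w (Subgroup.mem_top _)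
    have hcb : c0 * b = 0 := hbN
    have hgb : ∀ v e, gg α n (v, e) * b = n e * b := by
      intro v e
      have h1 := hunt.tw e (φ e⁻¹ v)
      have h2 : φ e (φ e⁻¹ v) = v := by
        rw [← MulAut.mul_apply, ← map_mul, mul_inv_cancel, map_one, MulAut.one_apply]
      rw [h2] at h1
      show α v * n e * b = n e * b
      rw [← h1, mul_assoc, hfix]
    have hn1 : n' 1 = 1 := by
      have h1 := hunt.li 1
      rw [hunt.one, mul_one] at h1
      exact h1
    have hsum : c0 * b = lam (∑ u, α u) • b := by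
      rw [hc0s, Finset.sum_mul, Fintype.sum_prod_type, Finset.sum_comm,
        Finset.sum_eq_single (1 : E)]
      · have h1 : ∀ v, lam (gg' α n' (v, (1 : E))) • gg α n (v, (1 : E)) * b =
            lam (α v⁻¹) • b := by
          intro v
          rw [smul_mul_assoc, hgb, hunt.one, one_mul]
          show lam (n' 1 * α v⁻¹) • b = _
          rw [hn1, one_mul]
        rw [Finset.sum_congr rfl (fun v _ => h1 v), ← Finset.sum_smul, map_sum]
        congr 1
        exact Fintype.sum_equiv (Equiv.inv V) _ _ (fun v => rfl)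
      · intro e _ he
        have h1 : ∀ v, lam (gg' α n' (v, e)) • gg α n (v, e) * b =
            lam (α v⁻¹ * n' e) • (n e * b) := by
          intro v
          rw [smul_mul_assoc, hgb]
          show lam (n' e * α v⁻¹) • (n e * b) = _
          rw [hsym]
        rw [Finset.sum_congr rfl (fun v _ => h1 v), ← Finset.sum_smul]
        have h2 : ∑ v, lam (α v⁻¹ * n' e) = ∑ w, lam (α w * n' e) :=
          Fintype.sum_equiv (Equiv.inv V) _ _ (fun v => rfl)
        rw [h2, (chn F V E A ℓ φ NN α n n' c lam hctf hunt hsym e he).1, zero_smul]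
      · intro h
        exact absurd (Finset.mem_univ _) h
    rw [hcb] at hsum
    rcases smul_eq_zero.1 hsum.symm with h | h
    · exact hlam h
    · exact hb1 h
  -- the inverse
  let T : Subalgebra.toSubmodule S →ₗ[F] Subalgebra.toSubmodule S :=
    (LinearMap.mulLeft F c0).restrict (fun x hx => S.mul_mem hc0S hx)
  have hTi : Function.Injective T := by
    intro x y hxy
    have h1 : c0 * (x : A) = c0 * (y : A) := congrArg Subtype.val hxy
    have h2 : c0 * ((x : A) - y) = 0 := by rw [mul_sub, h1, sub_self]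
    exact Subtype.ext (sub_eq_zero.1 (hinj _ h2))
  have hTs : Function.Surjective T := LinearMap.surjective_of_injective hTi
  obtain ⟨c', hc'⟩ := hTs ⟨1, S.one_mem⟩
  have hr : c0 * (c' : A) = 1 := congrArg Subtype.val hc'
  refine ⟨c', c'.2, ?_, hr, ?_⟩
  · have h2 : c0 * ((c' : A) * c0 - 1) = 0 := by
      rw [mul_sub, ← mul_assoc, hr, one_mul, mul_one, sub_self]
    exact sub_eq_zero.1 (hinj _ h2)
  · intro s hs
    have h2 : c0 * ((c' : A) * s - s * c') = 0 := by
      rw [mul_sub, ← mul_assoc, hr, one_mul, ← mul_assoc, ← hcom s hs, mul_assoc, hr, mul_one,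
        sub_self]
    exact sub_eq_zero.1 (hinj _ h2)


theorem li_ggn (hF : FvtStmt) (F V E A : Type) [Field F]
    [CommGroup V] [Fintype V] [Group E] [Fintype E] [Ring A] [Algebra F A]
    (ℓ : ℕ) [CharP F ℓ] (φ : E →* MulAut V) (NN : Subgroup V → Prop)
    (α : V →* A) (n n' : E → A) (c : E → E → F) (mu : A →ₗ[F] F)
    (hC : Ctn ℓ φ NN) (hU : Unt φ α n n' c) (hM : Frm F α mu) :
    LinearIndependent F (gg α n) := by
  classical
  have : Fact ℓ.Prime := ⟨hC.pr⟩
  have : Nontrivial A := by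
    by_contra h
    rw [not_nontrivial_iff_subsingleton] at h
    exact hM.nz (by rw [Subsingleton.elim (∑ u, α u) 0, map_zero])
  let L : (V × E → F) →ₗ[F] A :=
    { toFun := fun k => ∑ p, k p • gg α n p
      map_add' := fun k k' => by
        rw [← Finset.sum_add_distrib]
        apply Finset.sum_congr rfl
        intro p _
        rw [Pi.add_apply, add_smul]
      map_smul' := fun r k => by
        rw [RingHom.id_apply, Finset.smul_sum]
        apply Finset.sum_congr rfl
        intro p _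
        rw [Pi.smul_apply, smul_eq_mul, mul_smul] }
  have hL : ∀ k, L k = ∑ p, k p • gg α n p := fun _ => rfl
  have htr : ∀ u k, L (tra F V E u k) = α u * L k := by
    intro u k
    rw [hL, hL, Finset.mul_sum]
    have h1 := Equiv.sum_comp (Equiv.prodCongr (Equiv.mulLeft u) (Equiv.refl E))
      (fun p => (tra F V E u k) p • gg α n p)
    rw [← h1]
    apply Finset.sum_congr rfl
    intro p _
    show k (u⁻¹ * (u * p.1), p.2) • (α (u * p.1) * n p.2) = α u * (k p • (α p.1 * n p.2))
    rw [inv_mul_cancel_left, map_mul, mul_smul_comm, mul_assoc]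
  have hN : LinearMap.ker L = ⊥ := by
    by_contra hne
    obtain ⟨k, hk, hk0, hfx⟩ := hF ℓ F V (V × E → F) (tra F V E) (LinearMap.ker L) hC.pg
      (fun u k hk => by
        rw [LinearMap.mem_ker] at hk ⊢
        rw [htr, hk, mul_zero]) hne
    have hk1 : ∀ v e, k (v, e) = k (1, e) := by
      intro v e
      have h1 : tra F V E v k = k := hfx v trivial
      have h2 : k (v⁻¹ * v, e) = k (v, e) := congrFun h1 (v, e)
      rw [inv_mul_cancel] at h2
      exact h2.symm
    obtain ⟨f, hf⟩ : ∃ f, k (1, f) ≠ 0 := by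
      by_contra h
      apply hk0
      funext p
      obtain ⟨v, e⟩ := p
      rw [hk1]
      by_contra h2
      exact h ⟨e, h2⟩
    rw [LinearMap.mem_ker, hL, Fintype.sum_prod_type] at hk
    have h3 : ∑ e, k (1, e) * mu ((∑ v, α v) * (n e * n' f)) = 0 := by
      have h4 : mu ((∑ v, ∑ e, k (v, e) • gg α n (v, e)) * n' f) = 0 := by
        rw [hk, zero_mul, map_zero]
      rw [Finset.sum_comm, Finset.sum_mul, map_sum] at h4
      rw [← h4]
      apply Finset.sum_congr rfl
      intro e _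
      have h5 : (∑ v, k (v, e) • gg α n (v, e)) * n' f =
          k (1, e) • ((∑ v, α v) * (n e * n' f)) := by
        rw [Finset.sum_mul, Finset.sum_mul, Finset.smul_sum]
        apply Finset.sum_congr rfl
        intro v _
        rw [hk1]
        show k (1, e) • (α v * n e) * n' f = _
        rw [smul_mul_assoc, mul_assoc]
      rw [h5, map_smul, smul_eq_mul]
    have h6 : ∀ e, e ≠ f → k (1, e) * mu ((∑ v, α v) * (n e * n' f)) = 0 := by
      intro e he
      have h7 : n (e * f⁻¹) = c (e * f⁻¹) f • (n e * n' f) := by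
        have h8 := hU.mul (e * f⁻¹) f
        rw [inv_mul_cancel_right] at h8
        rw [← smul_mul_assoc, ← h8, mul_assoc, hU.ri, mul_one]
      have h9 : c (e * f⁻¹) f ≠ 0 := by
        intro h0
        rw [h0, zero_smul] at h7
        have h10 := hU.li (e * f⁻¹)
        rw [h7, mul_zero] at h10
        exact zero_ne_one h10
      have h11 : n e * n' f = (c (e * f⁻¹) f)⁻¹ • n (e * f⁻¹) := by
        rw [h7, smul_smul, inv_mul_cancel₀ h9, one_smul]
      have h12 : e * f⁻¹ ≠ 1 := by
        intro h0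
        exact he (mul_inv_eq_one.1 h0)
      have h13 := (chn F V E A ℓ φ NN α n n' c mu hC hU hM.sym (e * f⁻¹) h12).2
      rw [h11, mul_smul_comm, map_smul, Finset.sum_mul, map_sum, h13, smul_zero, mul_zero]
    rw [Finset.sum_eq_single f (fun e _ he => h6 e he)
      (fun h => absurd (Finset.mem_univ _) h), hU.ri, mul_one] at h3
    rcases mul_eq_zero.1 h3 with h | h
    · exact hf h
    · exact hM.nz h
  rw [Fintype.linearIndependent_iff]
  intro k hk p
  have h1 : k ∈ LinearMap.ker L := by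
    rw [LinearMap.mem_ker, hL]
    exact hk
  rw [hN, Submodule.mem_bot] at h1
  rw [h1]
  rfl

theorem retn (hF : FvtStmt) (hP : D6.PrjStmt) (F V E A : Type) [Field F]
    [CommGroup V] [Fintype V] [Group E] [Fintype E] [Ring A] [Algebra F A]
    [FiniteDimensional F A] (ℓ : ℕ) [CharP F ℓ] (φ : E →* MulAut V) (NN : Subgroup V → Prop)
    (α : V →* A) (n n' : E → A) (c : E → E → F) (mu : A →ₗ[F] F) (S : Subalgebra F A) (c' : A)
    (hC : Ctn ℓ φ NN) (hU : Unt φ α n n' c) (hM : Frm F α mu)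
    (hT : Tg F S (gg α n) (gg' α n')) (hα : ∀ u, α u ∈ S) (hn : ∀ e, n e ∈ S)
    (hc : Cg F S (gg α n) (gg' α n') mu c') :
    LinearIndependent F (gg α n) ∧
    ∀ x, Ev F (gg α n) (gg' α n') mu x * c' = ∑ p, mu (gg' α n' p * x * c') • gg α n p := by
  have hli := li_ggn hF F V E A ℓ φ NN α n n' c mu hC hU hM
  obtain ⟨hES, hEl, hEr, -, -, -⟩ := hP F A (V × E) S (gg α n) (gg' α n') mu c' hT hM.sym hc
  have h5 : ∀ x, Ev F (gg α n) (gg' α n') mu x * c' =
      ∑ p, mu (gg' α n' p * x * c') • gg α n p := by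
    intro x
    rw [← hEr c' hc.mem]
    show ∑ p, mu (gg' α n' p * (x * c')) • gg α n p = _
    apply Finset.sum_congr rfl
    intro p _
    rw [mul_assoc]
  exact ⟨hli, h5⟩
/-- a frame of the projection `q` with stabilisers outside `NN` -/
structure FqN {F V E A Ω : Type} [Field F] [CommGroup V] [Group E] [Ring A] [Algebra F A]
    [Fintype Ω] [MulAction (V × V) Ω] (φ : E →* MulAut V) (NN : Subgroup V → Prop)
    (α : V →* A) (q : A →ₗ[F] A) (b : Ω → A) (d : Ω → (A →ₗ[F] F)) : Prop where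
  eb : ∀ (w : V × V) (ω : Ω), b (w • ω) = bi F α w (b ω)
  ed : ∀ (w : V × V) (ω : Ω) (x : A), d (w • ω) (bi F α w x) = d ω x
  sum : ∀ x, ∑ ω, d ω x • b ω = q x
  st : ∀ ω : Ω, ∃ (e : E) (R : Subgroup V), ¬ NN R ∧
    MulAction.stabilizer (V × V) ω = tw (φ e).toMonoidHom R

theorem qwn (hpsx : PsxStmt) (hpsm : PsmStmt) (F V E A : Type) [Field F] [CommGroup V]
    [Fintype V] [Group E] [Fintype E] [Ring A] [Algebra F A] (ℓ : ℕ) [CharP F ℓ]
    (φ : E →* MulAut V) (NN : Subgroup V → Prop) (α : V →* A) (n n' : E → A) (c : E → E → F)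
    (q : A →ₗ[F] A) (hctf : Ctn ℓ φ NN) (hU : Unt φ α n n' c)
    (hPS : PS (fun K => ∃ (e : E) (R : Subgroup V), K = tw (φ e).toMonoidHom R) (bi F α))
    (hSpn : ∀ R : Subgroup V, NN R → ∀ a ∈ Fx (cj F α) R, ∃ c : V → F,
      a - ∑ u, c u • α u ∈ BK (cj F α) R)
    (hqq : ∀ x, q (q x) = q x) (hql : ∀ u x, q (α u * x) = α u * q x)
    (hqr : ∀ u x, q (x * α u) = q x * α u) (hqn : ∀ e u, q (n e * α u) = 0) :
    ∃ (Ω : Type) (_ : Fintype Ω) (_ : MulAction (V × V) Ω) (b : Ω → A) (d : Ω → (A →ₗ[F] F)),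
      FqN φ NN α q b d := by
  have hfact : Fact ℓ.Prime := ⟨hctf.pr⟩
  set P : Submodule F A := LinearMap.range q with hPdef
  have hPx : ∀ x ∈ P, q x = x := by
    rintro x ⟨y, rfl⟩
    exact hqq y
  have hlr : ∀ (g h : V) (a : A), q (α g * a * α h) = α g * q a * α h := by
    intro g h a
    rw [hqr, hql]
  have hP : ∀ (g h : V), ∀ x ∈ P, α g * x * α h ∈ P := by
    rintro g h x ⟨y, rfl⟩
    exact ⟨α g * y * α h, hlr g h y⟩
  obtain ⟨σ, hσ⟩ := exσ (F := F) α P hP
  set p : A →ₗ[F] P := LinearMap.codRestrict P q (fun x => ⟨x, rfl⟩) with hp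
  have hpx : ∀ a, ((p a : P) : A) = q a := fun _ => rfl
  have hpi : ∀ x : P, p (x : A) = x := by
    intro x
    apply Subtype.ext
    rw [hpx]
    exact hPx _ x.2
  have hbi : ∀ (w : V × V) (a : A), bi F α w a = α w.1 * a * α w.2⁻¹ := by
    intro w a
    show α w.1 * (a * α w.2⁻¹) = _
    rw [← mul_assoc]
  have hpσ : ∀ (w : V × V) (a : A), p (bi F α w a) = σ w (p a) := by
    intro w a
    apply Subtype.ext
    rw [hσ, hpx, hpx, hbi, hlr]
  have hPSσ : PS (fun K => ∃ (e : E) (R : Subgroup V), K = tw (φ e).toMonoidHom R) σ := by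
    refine hpsm F (V × V) A P (bi F α) σ _ P.subtype p ?_ ?_ ?_ hPS
    · intro w x
      rw [hbi]
      exact hσ w x
    · intro w a
      exact hpσ w a
    · intro x
      exact hpi x
  have hpg : IsPGroup ℓ (V × V) := by
    rw [IsPGroup.iff_card]
    obtain ⟨m, hm⟩ := (IsPGroup.iff_card).1 hctf.pg
    exact ⟨m + m, by rw [Nat.card_prod, hm, pow_add]⟩
  -- the Brauer quotients at `tw (φ e) R`, `R` in `NN`, vanish
  have key : ∀ (e : E) (R : Subgroup V), NN R →
      Fx σ (tw (φ e).toMonoidHom R) ≤ BK σ (tw (φ e).toMonoidHom R) := by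
    intro e R hR x hx
    set j : V →* V × V := (φ e).toMonoidHom.prod (MonoidHom.id V) with hj
    have hjinj : Function.Injective j := by
      intro u v h
      exact congrArg Prod.snd h
    have hmap : R.map j = tw (φ e).toMonoidHom R := rfl
    have hcomm : ∀ v : V, α (φ e v) * n e = n e * α v := fun v => (hU.tw e v).symm
    have hcomm' : ∀ v : V, n' e * α (φ e v) = α v * n' e := by
      intro v
      calc n' e * α (φ e v) = n' e * (α (φ e v) * n e) * n' e := by
              rw [mul_assoc, mul_assoc, hU.ri, mul_one]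
        _ = α v * n' e := by
              rw [hcomm, ← mul_assoc, hU.li, one_mul]
    set Θ : A →ₗ[F] P := p.comp (LinearMap.mulLeft F (n e)) with hΘ
    have hΘσ : ∀ (v : V) (a : A), Θ (cj F α v a) = σ (j v) (Θ a) := by
      intro v a
      show p (n e * (α v * (a * α v⁻¹))) = σ (j v) (p (n e * a))
      rw [← hpσ, hbi]
      congr 1
      show _ = α (φ e v) * (n e * a) * α v⁻¹
      rw [← mul_assoc (α (φ e v)), hcomm]
      simp only [mul_assoc]
    have hfix : n' e * (x : A) ∈ Fx (cj F α) R := by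
      intro v hv
      have h1 : σ (j v) x = x := hx (j v) (Subgroup.mem_map_of_mem j hv)
      have h2 : ((σ (j v) x : P) : A) = (x : A) := congrArg Subtype.val h1
      rw [hσ] at h2
      have h3 : α (φ e v) * (x : A) * α v⁻¹ = x := h2
      show α v * (n' e * (x : A) * α v⁻¹) = n' e * (x : A)
      conv_rhs => rw [← h3]
      simp only [← mul_assoc]
      rw [hcomm']
    obtain ⟨cf, hcf⟩ := hSpn R hR _ hfix
    have h4 := BK_map (cj F α) σ j hjinj Θ hΘσ R _ hcf
    rw [hmap, map_sub, map_sum] at h4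
    have h5 : ∀ u : V, Θ (cf u • α u) = 0 := by
      intro u
      rw [map_smul]
      have h6 : Θ (α u) = 0 := by
        apply Subtype.ext
        exact hqn e u
      rw [h6, smul_zero]
    rw [Finset.sum_congr rfl fun u _ => h5 u, Finset.sum_const_zero, sub_zero] at h4
    have h7 : Θ (n' e * (x : A)) = x := by
      show p (n e * (n' e * (x : A))) = x
      rw [← mul_assoc, hU.ri, one_mul]
      exact hpi x
    rw [h7] at h4
    exact h4
  obtain ⟨Ω, i1, i2, b, d, hfr, hst⟩ :=
    hpsx ℓ F (V × V) P σ _ hpg (fun x y => mul_comm x y) hPSσ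
  refine ⟨Ω, i1, i2, fun ω => (b ω : A), fun ω => (d ω).comp p, ?_, ?_, ?_, ?_⟩
  · intro w ω
    show ((b (w • ω) : P) : A) = bi F α w (b ω)
    rw [hfr.1, hσ, hbi]
  · intro w ω x
    show d (w • ω) (p (bi F α w x)) = d ω (p x)
    rw [hpσ, hfr.2.1]
  · intro x
    have h := congrArg Subtype.val (hfr.2.2 (p x))
    rw [Submodule.coe_sum] at h
    exact h
  · intro ω
    obtain ⟨⟨e, R, hR⟩, hne⟩ := hst ω
    refine ⟨e, R, ?_, hR⟩
    intro hnot
    apply hne
    rw [hR]
    exact key e R hnot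



theorem altn (omt : OmtStmt) (trs : TrsStmt) (F V E A Ω : Type) [Field F] [CommGroup V]
    [Fintype V] [Group E] [Ring A] [Algebra F A] [FiniteDimensional F A] [Fintype Ω]
    [MulAction (V × V) Ω] (φ : E →* MulAut V) (NN : Subgroup V → Prop) (α : V →* A)
    (lam : A →ₗ[F] F) (q : A →ₗ[F] A) (b : Ω → A) (d : Ω → (A →ₗ[F] F)) (hW : NN ⊤)
    (hsym : ∀ a b, lam (a * b) = lam (b * a)) (hnd : ∀ a, (∀ b, lam (a * b) = 0) → a = 0)
    (hfN : FqN φ NN α q b d) :
    ∃ al : A →ₗ[F] A, (∀ x, ∑ h, al (x * α h⁻¹) * α h = q x) ∧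
      ∀ (m : ℕ) (b b' : Fin m → A), Du F lam b b' → ∀ ζ : A, (∀ u, ζ * α u = α u * ζ) →
        ∑ k, al (b k) * ζ * b' k ∈ BK (cj F α) ⊤ := by
  have hf : Fq F φ ⊤ α q b d := ⟨hfN.eb, hfN.ed, hfN.sum, fun ω => by
    obtain ⟨e, R, -, h⟩ := hfN.st ω
    exact ⟨e, R, le_top, h⟩⟩
  obtain ⟨O, _, _, s, p, hps, hp, hcov, hsum, hfix⟩ := omt V E Ω φ (fun ω => by
    obtain ⟨e, R, -, h⟩ := hf.st ω
    exact ⟨e, R, h⟩)
  refine ⟨∑ o, (d (s o)).smulRight (b (s o)), ?_, ?_⟩
  · intro x
    have e1 : ∀ z : A, (∑ o, (d (s o)).smulRight (b (s o))) z = ∑ o, d (s o) z • b (s o) := by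
      intro z
      rw [LinearMap.sum_apply]
      rfl
    rw [← hf.sum x, hsum, Finset.sum_comm]
    rw [← Equiv.sum_comp (Equiv.inv V)]
    refine Finset.sum_congr rfl fun h _ => ?_
    rw [e1, Finset.sum_mul]
    refine Finset.sum_congr rfl fun o _ => ?_
    rw [d_apply hf, b_apply hf, Equiv.inv_apply, inv_one, map_one, one_mul, one_mul,
      smul_mul_assoc, inv_inv]
  · intro m c c' hc ζ hζ
    set U : Ω → A := fun ω => b ω * ζ * yy d c c' ω with hU
    have hU1 : ∀ (v h : V) (ω : Ω), U (((v, h) : V × V) • ω) = cj F α v (U ω) := by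
      intro v h ω
      have e1 : cj F α v (U ω) = α v * (U ω * α v⁻¹) := rfl
      rw [e1, hU]
      show b (((v, h) : V × V) • ω) * ζ * yy d c c' (((v, h) : V × V) • ω) = _
      rw [b_apply hf, yy_apply hf lam hsym hnd c c' hc]
      have e2 : α v * (b ω * α h⁻¹) * ζ * (α h * yy d c c' ω * α v⁻¹) =
          α v * (b ω * (α h⁻¹ * (ζ * α h)) * yy d c c' ω * α v⁻¹) := by noncomm_ring
      rw [e2, hζ h, ← mul_assoc (α h⁻¹), a_l, one_mul]
    have hU2 : ∀ (v : V) (o : O), U (s (v • o)) = cj F α v (U (s o)) := by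
      intro v o
      obtain ⟨h, hh⟩ := hcov (((v, 1) : V × V) • s o)
      rw [hp, hps] at hh
      rw [← hU1 v 1 (s o), hh, hU1, map_one]
      rfl
    have hsum2 : ∑ k, (∑ o, (d (s o)).smulRight (b (s o))) (c k) * ζ * c' k =
        ∑ o ∈ Finset.univ, U (s o) := by
      have e1 : ∀ k, (∑ o, (d (s o)).smulRight (b (s o))) (c k) * ζ * c' k =
          ∑ o, b (s o) * ζ * (d (s o) (c k) • c' k) := by
        intro k
        rw [LinearMap.sum_apply, Finset.sum_mul, Finset.sum_mul]
        refine Finset.sum_congr rfl fun o _ => ?_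
        show d (s o) (c k) • b (s o) * ζ * c' k = _
        rw [smul_mul_assoc, smul_mul_assoc, mul_smul_comm]
      rw [Finset.sum_congr rfl fun k _ => e1 k, Finset.sum_comm]
      refine Finset.sum_congr rfl fun o _ => ?_
      rw [← Finset.mul_sum]
      rfl
    rw [hsum2]
    refine trs F V A O (cj F α) ⊤ (fun o => U (s o)) Finset.univ (fun o _ h _ => Finset.mem_univ _)
      ?_ (fun h _ o => hU2 h o)
    intro o _ hfx
    obtain ⟨e, R, hR, hst⟩ := hfN.st (s o)
    have h1 := hfix (s o) e R hst (fun v => by rw [hps]; exact hfx v (Subgroup.mem_top v))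
    rw [h1] at hR
    exact hR hW



end Pool.Agent.PFE.H79
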