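import Pool.Agent.Helper79_PFE.AsmN

/-!
# Squad PFE: assembly of `SznStmt` (helper79)
-/

open scoped BigOperators TensorProduct

noncomputable section

namespace Pool.Agent.PFE.H79

open Pool.Agent.PFC Pool.Agent.PFE Pool.Agent.PFE.S
open Pool.Agent.PFC.B5c (bd)

/-- The elements of `E` which centralise `Q`. -/
def cE {V E : Type} [CommGroup V] [Group E] (φ : E →* MulAut V) (Q : Subgroup V) :
    Subgroup E where
  carrier := {e | ∀ u ∈ Q, φ e u = u}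
  one_mem' := by
    intro u _
    rw [map_one, MulAut.one_apply]
  mul_mem' := by
    intro a b ha hb u hu
    rw [map_mul, MulAut.mul_apply, hb u hu, ha u hu]
  inv_mem' := by
    intro a ha u hu
    have h1 : φ a⁻¹ (φ a u) = u := by
      rw [← MulAut.mul_apply, ← map_mul, inv_mul_cancel, map_one, MulAut.one_apply]
    rwa [ha u hu] at h1

theorem szn (hqgn : QgnStmt) (twl : TwlStmt) (ptt : PttStmt) (sgt : SgtStmt) (tbu : TbuStmt)
    (tbn : TbnStmt) (sgc : SgcStmt) (sgf : SgfStmt) (abq : AbqStmt) (fla : FlaStmt)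
    (flz : FlzStmt) : SznStmt := by
  intro F V E A _ _ _ _ _ _ _ _ ℓ _ φ NN α hC hI
  classical
  have := hI.fin
  have hp : Fact ℓ.Prime := ⟨hC.pr⟩
  have qke := qke_
  have abq' : AbqStmt := abq
  obtain ⟨N, Y', j, κ, n, hn0, hNe, hκ, hjf, hjj, hj1, ⟨lam, hlam⟩, hps, hYt, hun, hCPX, hCPY,
    hRzN, hRzY, hNa, hpm⟩ := coreN hqgn F V E A ℓ φ NN α hC hI
  refine ⟨Y'.A, inferInstance, inferInstance, Y'.ι, hpm, ?_⟩
  have hcn : Cnr j κ := ⟨hκ.inj, hκ.mul, hκ.one, hκ.ran⟩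
  have hzm := H52.zmx F N.A A n hn0 hNe
  have hlcn : B5c.LcnStmt := B5c.H65.lcn
  have hce : ∀ z : (N.tens (bd F α)).A, (∀ a, z * a = a * z) → IsUnit z ∨ IsNilpotent z := by
    intro z hz
    obtain ⟨c, hc, rfl⟩ := hzm.1 z hz
    have hcz : c ∈ Cz F α ⊤ := by
      rw [Cz, Subalgebra.mem_centralizer_iff]
      intro g _
      exact (hc g).symm
    rcases (hlcn F (Cz F α ⊤) hI.loc).1 ⟨c, hcz⟩ with h | h
    · left
      have h2 : IsUnit c := by
        have := h.map (Cz F α ⊤).val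
        exact this
      have := h2.map (Algebra.TensorProduct.includeRight : A →ₐ[F] N.A ⊗[F] A)
      exact this
    · right
      have h2 : IsNilpotent c := by
        obtain ⟨k, hk⟩ := h
        exact ⟨k, by simpa using congrArg Subtype.val hk⟩
      exact h2.map (Algebra.TensorProduct.includeRight : A →ₐ[F] N.A ⊗[F] A)
  have hfull : (1 : (N.tens (bd F α)).A) ∈ Submodule.span F {x | ∃ a b, x = a * j * b} :=
    funr ℓ F V E (N.tens (bd F α)).A φ (N.tens (bd F α)).ι lam j hC.pg hC.cop hC.fa hlam hps hYt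
      hun hce hjf hjj hj1
  refine ⟨?_, ?_, ?_⟩
  · apply le_antisymm
    · exact (H63.lsc F _ Y'.A j κ hcn).trans (H49c.lsm H91.lsf F N.A A n hn0 hNe)
    · exact (B5c.H60.lsn H63.lsc F N.A A n hn0 hNe).trans (H91.lsf F _ Y'.A j κ hcn hfull)
  · exact (B5c.H76.zcn F _ Y'.A j κ hcn hfull).trans hzm.2
  intro V1 C _ _ _ _ _ i θ hV1 hi hθ S _ _ q hq
  -- the twisted Brauer maps of `N`
  obtain ⟨N1, hN1m, hN1⟩ := hNa i.range
  obtain ⟨β, s, h, hTB⟩ := tbn twl ptt qke tbu ℓ F V V1 C N N1 i θ hC.pg hV1 hi hN1m hN1 (by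
    intro c
    obtain ⟨e, he⟩ := hθ c
    exact ⟨φ e, hRzN e, he⟩)
  -- the graded algebra of `Y`
  have hY := sgt twl F V V1 C N1.A S N (bd F α) i θ β s h q hTB hq
  -- the corner
  obtain ⟨S', iR, iA, κ', q', hk, hq'⟩ := sgc twl F V V1 C (N1.A ⊗[F] S) (N.tens (bd F α)) Y' i θ
    _ j κ hκ hY
  refine ⟨S', iR, iA, q', hq', ?_⟩
  -- fullness
  obtain ⟨B, bβ, bs, hB⟩ := qal_ ℓ F V (N.tens (bd F α)) hC.pg hCPY i.range
  obtain ⟨⟨lam', hlam'⟩, hps', hBt, hun', hbj, hbjj, hbj1⟩ :=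
    fla qke abq' qtr_ ℓ F V E φ (cE φ i.range) (N.tens (bd F α)) B i.range bβ bs lam j hC.pg
      (fun e => Iff.rfl) hCPY hB hlam hps hYt hRzY hjf hjj hj1
  have hcop1 : ¬ ℓ ∣ Nat.card (cE φ i.range) := fun hd =>
    hC.cop (hd.trans (Subgroup.card_subgroup_dvd_card _))
  have hfa1 : ∀ e : cE φ i.range, (∀ u, φ.comp (cE φ i.range).subtype e u = u) → e = 1 := by
    intro e he
    apply Subtype.ext
    exact hC.fa _ he
  have hcz := flz qke abq' qal_ qte_ qun_ H52.zmx hlcn ℓ F V N N1 (bd F α) B i.range _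
    hC.pg hCPX hI.ps hI.top hI.loc hN1m hN1 ⟨bβ, bs, hB⟩
  have hfB : Fl F (bβ j) :=
    funr ℓ F V (cE φ i.range) B.A (φ.comp (cE φ i.range).subtype) B.ι lam' (bβ j) hC.pg hcop1
      hfa1 hlam' hps' hBt hun' hcz hbj hbjj hbj1
  have hfS := sgf twl ptt qke ℓ F V V1 C (N1.A ⊗[F] S) (N.tens (bd F α)) B i θ _ j bβ bs hC.pg
    hV1 hi hB hY (fun v hv => hjf v (Subgroup.mem_top v)) hfB
  obtain ⟨n1, hn1, hN1e⟩ := hN1m
  exact (B5c.H76.zcn F _ S' _ κ' hk hfS).trans (H52.zmx F N1.A S n1 hn1 hN1e).2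

end Pool.Agent.PFE.H79
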